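import Mathlib
import Pool.Agent.Helper704.FT
set_option autoImplicit false
set_option linter.unusedSectionVars false
open MeasureTheory
open scoped FourierTransform ENNReal

open Pool.Agent.Helper704

namespace Pool.Agent.Helper704.RW

section abstract
variable {H : Type*} [NormedAddCommGroup H] [InnerProductSpace ℂ H] [CompleteSpace H]
  {ι : Type*} (a b h : ι → H)

lemma orth_sum (hab : ∀ p q, inner ℂ (a p) (b q) = 0) (s : Finset ι) (c d : ι → ℂ) :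
    inner ℂ (∑ p ∈ s, c p • a p) (∑ p ∈ s, d p • b p) = 0 := by
  rw [sum_inner]
  refine Finset.sum_eq_zero fun p _ => ?_
  rw [inner_sum]
  refine Finset.sum_eq_zero fun q _ => ?_
  rw [inner_smul_left, inner_smul_right, hab]; simp

lemma orthonormal_norm_sq {e : ι → H} (he : Orthonormal ℂ e) (s : Finset ι) (c : ι → ℂ) :
    ‖∑ p ∈ s, c p • e p‖ ^ 2 = ∑ p ∈ s, ‖c p‖ ^ 2 := by
  have h1 : (inner ℂ (∑ p ∈ s, c p • e p) (∑ p ∈ s, c p • e p) : ℂ) =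
      ((‖∑ p ∈ s, c p • e p‖ ^ 2 : ℝ) : ℂ) := by
    rw [inner_self_eq_norm_sq_to_K]; norm_cast
  have h2 := he.inner_sum c c s
  rw [h1] at h2
  have h3 : ∑ i ∈ s, (starRingEnd ℂ) (c i) * c i = ((∑ p ∈ s, ‖c p‖ ^ 2 : ℝ) : ℂ) := by
    push_cast
    refine Finset.sum_congr rfl fun i _ => ?_
    rw [mul_comm, Complex.mul_conj, Complex.normSq_eq_norm_sq]
    push_cast; rfl
  rw [h3] at h2
  exact_mod_cast h2

lemma norm_sq_add_orth (x y : H) (hxy : inner ℂ x y = 0) : ‖x + y‖ ^ 2 = ‖x‖ ^ 2 + ‖y‖ ^ 2 := by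
  have := norm_add_sq (𝕜 := ℂ) x y
  rw [hxy] at this
  simpa using this

theorem riesz_bounds (hab : ∀ p q, inner ℂ (a p) (b q) = 0) (hah : ∀ p q, inner ℂ (a p) (h q) = 0)
    (he : Orthonormal ℂ (fun p => a p + b p)) (C : ℝ) (hC : 0 ≤ C)
    (hh : ∀ (s : Finset ι) (c : ι → ℂ), ‖∑ p ∈ s, c p • h p‖ ^ 2 ≤ C * ‖∑ p ∈ s, c p • a p‖ ^ 2)
    (ε : ℝ) (hε : 0 < ε) :
    ∃ A B : ℝ, 0 < A ∧ 0 < B ∧ ∀ (s : Finset ι) (c : ι → ℂ),
      A * ∑ p ∈ s, ‖c p‖ ^ 2 ≤ ‖∑ p ∈ s, c p • ((ε : ℂ) • a p + b p + h p)‖ ^ 2 ∧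
      ‖∑ p ∈ s, c p • ((ε : ℂ) • a p + b p + h p)‖ ^ 2 ≤ B * ∑ p ∈ s, ‖c p‖ ^ 2 := by
  have hK : 0 < (1 + 2 * C) / ε ^ 2 + 2 := by positivity
  refine ⟨((1 + 2 * C) / ε ^ 2 + 2)⁻¹, ε ^ 2 + 2 + 2 * C, by positivity, by positivity,
    fun s c => ?_⟩
  set x := ∑ p ∈ s, c p • a p with hx
  set y := ∑ p ∈ s, c p • b p with hy
  set z := ∑ p ∈ s, c p • h p with hz
  have e1 : ∑ p ∈ s, c p • ((ε : ℂ) • a p + b p + h p) = (ε : ℂ) • x + (y + z) := by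
    rw [hx, hy, hz, Finset.smul_sum, ← Finset.sum_add_distrib, ← Finset.sum_add_distrib]
    refine Finset.sum_congr rfl fun p _ => ?_
    rw [smul_add, smul_add, smul_comm]
    abel
  have hxy : inner ℂ x y = 0 := orth_sum a b hab s c c
  have hxz : inner ℂ x z = 0 := orth_sum a h hah s c c
  have e2 : ‖(ε : ℂ) • x + (y + z)‖ ^ 2 = ε ^ 2 * ‖x‖ ^ 2 + ‖y + z‖ ^ 2 := by
    rw [norm_sq_add_orth _ _ (by rw [inner_smul_left, inner_add_right, hxy, hxz]; simp)]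
    rw [norm_smul, mul_pow, Complex.norm_real, Real.norm_eq_abs, sq_abs]
  have e3 : ∑ p ∈ s, ‖c p‖ ^ 2 = ‖x‖ ^ 2 + ‖y‖ ^ 2 := by
    rw [← orthonormal_norm_sq he s c, ← norm_sq_add_orth _ _ hxy]
    congr 2
    rw [hx, hy, ← Finset.sum_add_distrib]
    refine Finset.sum_congr rfl fun p _ => by rw [smul_add]
  have e4 : ‖z‖ ^ 2 ≤ C * ‖x‖ ^ 2 := hh s c
  rw [e1, e2, e3]
  have t1 : ‖y + z‖ ^ 2 ≤ 2 * ‖y‖ ^ 2 + 2 * ‖z‖ ^ 2 := by
    have := norm_add_le y z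
    nlinarith [norm_nonneg (y + z), norm_nonneg y, norm_nonneg z, sq_nonneg (‖y‖ - ‖z‖)]
  have t2 : ‖y‖ ^ 2 ≤ 2 * ‖y + z‖ ^ 2 + 2 * ‖z‖ ^ 2 := by
    have : ‖y‖ ≤ ‖y + z‖ + ‖z‖ := by
      have := norm_sub_le (y + z) z
      simpa using this
    nlinarith [norm_nonneg (y + z), norm_nonneg y, norm_nonneg z, sq_nonneg (‖y + z‖ - ‖z‖)]
  constructor
  · rw [inv_mul_le_iff₀ hK]
    have t3 : (1 + 2 * C) / ε ^ 2 * (ε ^ 2 * ‖x‖ ^ 2) = (1 + 2 * C) * ‖x‖ ^ 2 := by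
      field_simp
    have t4 : 0 ≤ (1 + 2 * C) / ε ^ 2 * ‖y + z‖ ^ 2 := by positivity
    have t5 : 0 ≤ ε ^ 2 * ‖x‖ ^ 2 := by positivity
    calc ‖x‖ ^ 2 + ‖y‖ ^ 2 ≤ (1 + 2 * C) * ‖x‖ ^ 2 + 2 * ‖y + z‖ ^ 2 := by nlinarith
      _ ≤ ((1 + 2 * C) / ε ^ 2 + 2) * (ε ^ 2 * ‖x‖ ^ 2 + ‖y + z‖ ^ 2) := by
        have t6 : ((1 + 2 * C) / ε ^ 2 + 2) * (ε ^ 2 * ‖x‖ ^ 2 + ‖y + z‖ ^ 2) =
            (1 + 2 * C) / ε ^ 2 * (ε ^ 2 * ‖x‖ ^ 2) + (1 + 2 * C) / ε ^ 2 * ‖y + z‖ ^ 2 +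
            2 * (ε ^ 2 * ‖x‖ ^ 2) + 2 * ‖y + z‖ ^ 2 := by ring
        rw [t6, t3]; linarith
  · nlinarith [sq_nonneg ‖x‖, sq_nonneg ‖y‖, sq_nonneg ε, mul_nonneg hC (sq_nonneg ‖y‖),
      mul_nonneg (sq_nonneg ε) (sq_nonneg ‖y‖)]

theorem dense_span (hab : ∀ p q, inner ℂ (a p) (b q) = 0) (hah : ∀ p q, inner ℂ (a p) (h q) = 0)
    (hd : ∀ x : H, ∀ η : ℝ, 0 < η → ∃ (s : Finset ι) (c : ι → ℂ),
      ‖x - ∑ p ∈ s, c p • (a p + b p)‖ < η)
    (C : ℝ) (hC : 0 ≤ C)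
    (hh : ∀ (s : Finset ι) (c : ι → ℂ), ‖∑ p ∈ s, c p • h p‖ ^ 2 ≤ C * ‖∑ p ∈ s, c p • a p‖ ^ 2)
    (ε : ℝ) (hε : 0 < ε) :
    (Submodule.span ℂ (Set.range fun p => (ε : ℂ) • a p + b p + h p)).topologicalClosure = ⊤ := by
  set T := (Submodule.span ℂ (Set.range fun p => (ε : ℂ) • a p + b p + h p)).topologicalClosure
    with hT
  have hTc : IsClosed (T : Set H) := Submodule.isClosed_topologicalClosure _
  have hmem : ∀ p, (ε : ℂ) • a p + b p + h p ∈ T := fun p =>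
    Submodule.le_topologicalClosure _ (Submodule.subset_span ⟨p, rfl⟩)
  -- vectors orthogonal to all the a p are in T
  have h1 : ∀ x : H, (∀ p, inner ℂ (a p) x = 0) → x ∈ T := by
    intro x hx
    have hcl : x ∈ closure (T : Set H) := by
      rw [Metric.mem_closure_iff]
      intro δ hδ
      set M := ε + 1 + Real.sqrt C + 1 with hM
      have hM0 : 0 < M := by positivity
      obtain ⟨s, c, hsc⟩ := hd x (δ / M) (by positivity)
      refine ⟨∑ p ∈ s, c p • ((ε : ℂ) • a p + b p + h p),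
        Submodule.sum_mem _ fun p _ => Submodule.smul_mem _ _ (hmem p), ?_⟩
      rw [dist_eq_norm]
      set u := ∑ p ∈ s, c p • a p with hu
      set y := ∑ p ∈ s, c p • b p with hy
      set z := ∑ p ∈ s, c p • h p with hz
      have e1 : ∑ p ∈ s, c p • ((ε : ℂ) • a p + b p + h p) = (ε : ℂ) • u + (y + z) := by
        rw [hu, hy, hz, Finset.smul_sum, ← Finset.sum_add_distrib, ← Finset.sum_add_distrib]
        refine Finset.sum_congr rfl fun p _ => ?_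
        rw [smul_add, smul_add, smul_comm]
        abel
      have e0 : ∑ p ∈ s, c p • (a p + b p) = u + y := by
        rw [hu, hy, ← Finset.sum_add_distrib]
        refine Finset.sum_congr rfl fun p _ => by rw [smul_add]
      rw [e0] at hsc
      have hux : inner ℂ u (x - y) = 0 := by
        rw [inner_sub_right, orth_sum a b hab s c c, hu, sum_inner]
        rw [Finset.sum_eq_zero (fun p _ => by rw [inner_smul_left, hx]; simp)]
        simp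
      have e2 : ‖x - (u + y)‖ ^ 2 = ‖u‖ ^ 2 + ‖x - y‖ ^ 2 := by
        have h3 : x - (u + y) = (-u) + (x - y) := by abel
        rw [h3, norm_sq_add_orth _ _ (by rw [inner_neg_left, hux]; simp), norm_neg]
      have hη : 0 < δ / M := by positivity
      have b1 : ‖u‖ ≤ δ / M := by
        nlinarith [norm_nonneg u, norm_nonneg (x - y), norm_nonneg (x - (u + y))]
      have b2 : ‖x - y‖ ≤ δ / M := by
        nlinarith [norm_nonneg u, norm_nonneg (x - y), norm_nonneg (x - (u + y))]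
      have b3 : ‖z‖ ≤ Real.sqrt C * (δ / M) := by
        have h4 : ‖z‖ ^ 2 ≤ C * ‖u‖ ^ 2 := hh s c
        have h5 : ‖z‖ ^ 2 ≤ (Real.sqrt C * (δ / M)) ^ 2 := by
          rw [mul_pow, Real.sq_sqrt hC]
          refine h4.trans (mul_le_mul_of_nonneg_left ?_ hC)
          exact pow_le_pow_left₀ (norm_nonneg _) b1 2
        exact abs_le_of_sq_le_sq' h5 (by positivity) |>.2
      rw [e1]
      have e3 : x - ((ε : ℂ) • u + (y + z)) = (x - y) - (ε : ℂ) • u - z := by abel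
      rw [e3]
      have b4 : ‖(ε : ℂ) • u‖ ≤ ε * (δ / M) := by
        rw [norm_smul, Complex.norm_real, Real.norm_eq_abs, abs_of_pos hε]
        exact mul_le_mul_of_nonneg_left b1 hε.le
      calc ‖(x - y) - (ε : ℂ) • u - z‖ ≤ ‖(x - y) - (ε : ℂ) • u‖ + ‖z‖ := norm_sub_le _ _
        _ ≤ ‖x - y‖ + ‖(ε : ℂ) • u‖ + ‖z‖ := by gcongr; exact norm_sub_le _ _
        _ ≤ δ / M + ε * (δ / M) + Real.sqrt C * (δ / M) := by linarith
        _ = (ε + 1 + Real.sqrt C) * (δ / M) := by ring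
        _ < M * (δ / M) := by
          refine mul_lt_mul_of_pos_right ?_ hη
          rw [hM]; linarith
        _ = δ := by field_simp
    rwa [hTc.closure_eq] at hcl
  have hb : ∀ p, b p ∈ T := fun p => h1 _ (fun q => hab q p)
  have hhT : ∀ p, h p ∈ T := fun p => h1 _ (fun q => hah q p)
  have ha : ∀ p, a p ∈ T := by
    intro p
    have h2 : (ε : ℂ) • a p ∈ T := by
      have := T.sub_mem (T.sub_mem (hmem p) (hhT p)) (hb p)
      convert this using 1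
      abel
    have h3 := T.smul_mem ((ε : ℂ)⁻¹) h2
    rwa [smul_smul, inv_mul_cancel₀ (by exact_mod_cast hε.ne'), one_smul] at h3
  rw [eq_top_iff]
  intro x _
  have hcl : x ∈ closure (T : Set H) := by
    rw [Metric.mem_closure_iff]
    intro δ hδ
    obtain ⟨s, c, hsc⟩ := hd x δ hδ
    refine ⟨∑ p ∈ s, c p • (a p + b p),
      Submodule.sum_mem _ fun p _ => Submodule.smul_mem _ _ (T.add_mem (ha p) (hb p)), ?_⟩
    rwa [dist_eq_norm]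
  rwa [hTc.closure_eq] at hcl

end abstract


section line

noncomputable abbrev HH := Lp ℂ 2 (volume : Measure ℝ)

/-- Multiplication by a power of two. -/
noncomputable def dy (j : ℤ) : ℝ ≃L[ℝ] ℝ :=
  ContinuousLinearEquiv.smulLeft (Units.mk0 ((2:ℝ) ^ j) (by positivity))

lemma dy_apply (j : ℤ) (x : ℝ) : dy j x = 2 ^ j * x := rfl

lemma adet_dy (j : ℤ) : adet (dy j) = 2 ^ j := by
  unfold adet
  have : ((dy j : ℝ ≃L[ℝ] ℝ) : ℝ →ₗ[ℝ] ℝ) = ((2:ℝ) ^ j) • LinearMap.id := by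
    ext; simp [dy_apply]
  rw [this, LinearMap.det_smul]
  simp

/-- The wavelet operators in the time domain. -/
noncomputable def Ds (p : ℤ × ℤ) : HH →ₗᵢ[ℂ] HH := wco (dy p.1) (p.2 : ℝ) (wT (dy p.1)) (wt_wT _)

/-- The wavelet operators in the frequency domain. -/
noncomputable def Dh (p : ℤ × ℤ) : HH →ₗᵢ[ℂ] HH :=
  wco (dy (-p.1)) 0 (wF (dy (-p.1)) (p.2 : ℝ)) (wt_wF _ _)

lemma fourier_Ds (p : ℤ × ℤ) (u : HH) : 𝓕 (Ds p u) = Dh p (𝓕 u) := by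
  unfold Ds Dh
  refine fourier_wco (dy p.1) (dy (-p.1)) (p.2 : ℝ) ?_ ?_ u
  · intro x ξ
    simp only [dy_apply, RCLike.inner_apply, conj_trivial]
    rw [zpow_neg]
    field_simp
  · rw [adet_dy, adet_dy, zpow_neg]

/-- The exponential. -/
noncomputable def ex (k : ℤ) (η : ℝ) : ℂ := Complex.exp (((-2 * Real.pi * (k * η) : ℝ) : ℂ) * Complex.I)

lemma norm_ex (k : ℤ) (η : ℝ) : ‖ex k η‖ = 1 := Complex.norm_exp_ofReal_mul_I _

lemma ex_add_int (k : ℤ) (η : ℝ) (l : ℤ) : ex k (η + l) = ex k η := by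
  unfold ex
  have : (((-2 * Real.pi * (k * (η + l)) : ℝ) : ℂ) * Complex.I) =
      (((-2 * Real.pi * (k * η) : ℝ) : ℂ) * Complex.I) + ((-(k * l) : ℤ) : ℂ) * (2 * Real.pi * Complex.I) := by
    push_cast; ring
  rw [this, Complex.exp_add, Complex.exp_int_mul_two_pi_mul_I, mul_one]

/-- The value of the frequency side operator. -/
noncomputable def fq (p : ℤ × ℤ) (φ : ℝ → ℂ) (ξ : ℝ) : ℂ :=
  ((Real.sqrt ((2:ℝ) ^ (-p.1)) : ℝ) : ℂ) * ex p.2 ((2:ℝ) ^ (-p.1) * ξ) * φ ((2:ℝ) ^ (-p.1) * ξ)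

lemma fq_eq (p : ℤ × ℤ) (φ : ℝ → ℂ) (ξ : ℝ) :
    wF (dy (-p.1)) (p.2 : ℝ) ξ * φ (dy (-p.1) ξ - 0) = fq p φ ξ := by
  unfold wF fq ex
  rw [adet_dy]
  simp only [dy_apply, sub_zero, RCLike.inner_apply, conj_trivial]
  congr 4
  ring_nf

lemma memLp_fq (p : ℤ × ℤ) {φ : ℝ → ℂ} (hφ : MemLp φ 2 volume) : MemLp (fq p φ) 2 volume := by
  have := memLp_wco (dy (-p.1)) 0 (wF (dy (-p.1)) (p.2 : ℝ)) (wt_wF _ _) hφ
  simp_rw [fq_eq] at this
  exact this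

lemma Dh_toLp (p : ℤ × ℤ) {φ : ℝ → ℂ} (hφ : MemLp φ 2 volume) :
    Dh p (hφ.toLp φ) = (memLp_fq p hφ).toLp _ := by
  unfold Dh
  rw [wco_toLp]
  apply MemLp.toLp_congr
  exact Filter.Eventually.of_forall fun ξ => fq_eq p φ ξ

lemma coeFn_sum {F : ℤ × ℤ → ℝ → ℂ} (hF : ∀ p, MemLp (F p) 2 volume) (s : Finset (ℤ × ℤ))
    (c : ℤ × ℤ → ℂ) :
    ((∑ p ∈ s, c p • (hF p).toLp (F p) : HH) : ℝ → ℂ) =ᵐ[volume] fun ξ => ∑ p ∈ s, c p * F p ξ := by
  classical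
  induction s using Finset.induction_on with
  | empty =>
    simp only [Finset.sum_empty]
    exact Lp.coeFn_zero ℂ 2 (volume : Measure ℝ)
  | insert p s hp ih =>
    rw [Finset.sum_insert hp]
    filter_upwards [Lp.coeFn_add (c p • (hF p).toLp (F p)) (∑ p ∈ s, c p • (hF p).toLp (F p)), ih,
      Lp.coeFn_smul (c p) ((hF p).toLp (F p)), (hF p).coeFn_toLp] with ξ h1 h2 h3 h4
    rw [h1, Pi.add_apply, h2, h3, Pi.smul_apply, h4, Finset.sum_insert hp, smul_eq_mul]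

lemma enorm_sq (x : HH) : ‖x‖ₑ ^ 2 = ∫⁻ ξ, ‖x ξ‖ₑ ^ 2 := by
  rw [Lp.enorm_def, eLpNorm_two_sq]

/-- The trigonometric polynomial of one level. -/
noncomputable def trig (s : Finset (ℤ × ℤ)) (c : ℤ × ℤ → ℂ) (j : ℤ) (η : ℝ) : ℂ :=
  ∑ p ∈ s.filter (fun p => p.1 = j), c p * ex p.2 η

lemma trig_add_int (s : Finset (ℤ × ℤ)) (c : ℤ × ℤ → ℂ) (j : ℤ) (η : ℝ) (l : ℤ) :
    trig s c j (η + l) = trig s c j η := by
  unfold trig
  simp_rw [ex_add_int]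

lemma measurable_ex (k : ℤ) : Measurable (ex k) := by unfold ex; fun_prop

lemma measurable_trig (s : Finset (ℤ × ℤ)) (c : ℤ × ℤ → ℂ) (j : ℤ) : Measurable (trig s c j) := by
  unfold trig
  exact Finset.measurable_sum _ fun p _ => (measurable_ex _).const_mul _

lemma sum_fq (s : Finset (ℤ × ℤ)) (c : ℤ × ℤ → ℂ) (φ : ℝ → ℂ) (ξ : ℝ) :
    ∑ p ∈ s, c p * fq p φ ξ = ∑ j ∈ s.image Prod.fst,
      ((Real.sqrt ((2:ℝ) ^ (-j)) : ℝ) : ℂ) * (trig s c j ((2:ℝ) ^ (-j) * ξ) * φ ((2:ℝ) ^ (-j) * ξ)) := by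
  classical
  rw [← Finset.sum_fiberwise_of_maps_to (t := s.image Prod.fst) (g := Prod.fst)
    (fun p hp => Finset.mem_image_of_mem _ hp)]
  refine Finset.sum_congr rfl fun j _ => ?_
  unfold trig
  rw [Finset.sum_mul, Finset.mul_sum]
  refine Finset.sum_congr rfl fun p hp => ?_
  have hp' : p.1 = j := (Finset.mem_filter.1 hp).2
  unfold fq
  rw [hp']
  ring

lemma enorm_sum_sq {ι : Type*} (s : Finset ι) (z : ι → ℂ)
    (h : ∀ i ∈ s, ∀ j ∈ s, z i ≠ 0 → z j ≠ 0 → i = j) :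
    ‖∑ i ∈ s, z i‖ₑ ^ 2 = ∑ i ∈ s, ‖z i‖ₑ ^ 2 := by
  classical
  by_cases h0 : ∀ i ∈ s, z i = 0
  · rw [Finset.sum_eq_zero h0, Finset.sum_eq_zero (fun i hi => by rw [h0 i hi]; simp)]
    simp
  · push Not at h0
    obtain ⟨i, hi, hi0⟩ := h0
    have h1 : ∀ j ∈ s, j ≠ i → z j = 0 := by
      intro j hj hji
      by_contra hc
      exact hji (h j hj i hi hc hi0)
    rw [Finset.sum_eq_single_of_mem i hi h1,
      Finset.sum_eq_single_of_mem i hi (fun j hj hji => by rw [h1 j hj hji]; simp)]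

/-- The energy identity for functions whose dyadic dilates have disjoint supports. -/
lemma energy (φ : ℝ → ℂ) (hφ : MemLp φ 2 volume)
    (hd : ∀ (ξ : ℝ) (j j' : ℤ), φ ((2:ℝ) ^ (-j) * ξ) ≠ 0 → φ ((2:ℝ) ^ (-j') * ξ) ≠ 0 → j = j')
    (s : Finset (ℤ × ℤ)) (c : ℤ × ℤ → ℂ) :
    ‖∑ p ∈ s, c p • Dh p (hφ.toLp φ)‖ₑ ^ 2 =
      ∑ j ∈ s.image Prod.fst, ∫⁻ η, ‖trig s c j η‖ₑ ^ 2 * ‖φ η‖ₑ ^ 2 := by
  simp_rw [Dh_toLp]
  rw [enorm_sq, lintegral_congr_ae (g := fun ξ => ‖∑ p ∈ s, c p * fq p φ ξ‖ₑ ^ 2)]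
  swap
  · filter_upwards [coeFn_sum (fun p => memLp_fq p hφ) s c] with ξ hξ
    rw [hξ]
  simp_rw [sum_fq]
  have h1 : ∀ ξ, ‖∑ j ∈ s.image Prod.fst, ((Real.sqrt ((2:ℝ) ^ (-j)) : ℝ) : ℂ) *
      (trig s c j ((2:ℝ) ^ (-j) * ξ) * φ ((2:ℝ) ^ (-j) * ξ))‖ₑ ^ 2 =
      ∑ j ∈ s.image Prod.fst, (fun η => ENNReal.ofReal ((2:ℝ) ^ (-j)) *
        (‖trig s c j η‖ₑ ^ 2 * ‖φ η‖ₑ ^ 2)) (dy (-j) ξ - 0) := by
    intro ξ
    rw [enorm_sum_sq]
    · refine Finset.sum_congr rfl fun j _ => ?_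
      simp only [dy_apply, sub_zero]
      rw [enorm_mul, enorm_mul, mul_pow, mul_pow]
      congr 1
      rw [← ofReal_norm, ← ENNReal.ofReal_pow (norm_nonneg _), Complex.norm_real,
        Real.norm_eq_abs, sq_abs, Real.sq_sqrt (by positivity)]
    · intro i _ j _ hi hj
      refine hd ξ i j ?_ ?_
      · intro h; apply hi; rw [h]; simp
      · intro h; apply hj; rw [h]; simp
  simp_rw [h1]
  rw [lintegral_finsetSum']
  · refine Finset.sum_congr rfl fun j _ => ?_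
    rw [lintegral_aff (dy (-j)) 0 (fun η => ENNReal.ofReal ((2:ℝ) ^ (-j)) *
        (‖trig s c j η‖ₑ ^ 2 * ‖φ η‖ₑ ^ 2)), lintegral_const_mul' _ _ ENNReal.ofReal_ne_top,
      ← mul_assoc, adet_dy, ← ENNReal.ofReal_mul (by positivity), inv_mul_cancel₀ (by positivity)]
    simp
  · intro j _
    have h2 : AEMeasurable (fun η => ENNReal.ofReal ((2:ℝ) ^ (-j)) *
        (‖trig s c j η‖ₑ ^ 2 * ‖φ η‖ₑ ^ 2)) volume :=
      (((measurable_trig s c j).enorm.pow_const 2).aemeasurable.mul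
        (hφ.1.enorm.pow_const 2)).const_mul _
    exact h2.comp_quasiMeasurePreserving (qmp_aff (dy (-j)) 0)

end line

section sets

/-- The base interval. -/
def QQ : Set ℝ := Set.Ico (-1 / 2) (1 / 2)

/-- The contraction. -/
noncomputable def kap (m : ℕ) (x : ℝ) : ℝ := (2:ℝ) ^ (-(2 * m : ℤ)) * (x + (2 ^ m + 1))

/-- The dyadic annulus. -/
def D0 (m : ℕ) : Set ℝ := {x | (2:ℝ) ^ (-(m : ℤ)) ≤ |x| ∧ |x| < (2:ℝ) ^ (-(m : ℤ) + 1)}

def K0 (m : ℕ) : Set ℝ := D0 m \ (kap m '' QQ)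

def KK (m : ℕ) : Set ℝ := ⋃ n : ℕ, (kap m)^[n] '' (K0 m)

def GG (m : ℕ) : Set ℝ := QQ \ KK m

lemma kap_emb (m : ℕ) : MeasurableEmbedding (kap m) := by
  have h : kap m = fun x => (MeasurableEquiv.mulLeft₀ ((2:ℝ) ^ (-(2 * m : ℤ))) (by positivity))
      (x + (2 ^ m + 1)) := rfl
  rw [h]
  exact (MeasurableEquiv.measurableEmbedding _).comp (measurableEmbedding_addRight _)

lemma kap_inj (m : ℕ) : Function.Injective (kap m) := (kap_emb m).injective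

lemma kap_image_sub (m : ℕ) (hm : 1 ≤ m) : kap m '' QQ ⊆ D0 m := by
  rintro y ⟨x, hx, rfl⟩
  have h1 : (2:ℝ) ≤ 2 ^ m := by
    calc (2:ℝ) = 2 ^ 1 := by norm_num
      _ ≤ 2 ^ m := pow_le_pow_right₀ (by norm_num) hm
  have h2 : (2:ℝ) ^ (-(2 * m : ℤ)) * 2 ^ m = (2:ℝ) ^ (-(m : ℤ)) := by
    rw [← zpow_natCast, ← zpow_add₀ (by norm_num)]; congr 1; ring
  have h3 : (0:ℝ) < 2 ^ (-(2 * m : ℤ)) := by positivity
  have hx1 : -1 / 2 ≤ x := hx.1
  have hx2 : x < 1 / 2 := hx.2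
  have h4 : 0 < kap m x := by unfold kap; nlinarith
  unfold D0
  rw [Set.mem_ofPred_eq, abs_of_pos h4]
  constructor
  · rw [← h2]; unfold kap
    exact mul_le_mul_of_nonneg_left (by linarith) h3.le
  · rw [zpow_add₀ (by norm_num), ← h2, zpow_one, mul_assoc]; unfold kap
    exact mul_lt_mul_of_pos_left (by linarith) h3

lemma D0_sub (m : ℕ) (hm : 2 ≤ m) : D0 m ⊆ QQ := by
  intro x hx
  have h1 : (2:ℝ) ^ (-(m : ℤ) + 1) ≤ 2 ^ (-1 : ℤ) :=
    zpow_le_zpow_right₀ (by norm_num) (by omega)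
  have h2 : |x| < 1 / 2 := lt_of_lt_of_le hx.2 (h1.trans (by norm_num))
  rw [abs_lt] at h2
  exact ⟨by linarith [h2.1], h2.2⟩

lemma KK_eq (m : ℕ) : KK m = K0 m ∪ kap m '' KK m := by
  unfold KK
  rw [Set.image_iUnion]
  ext x
  constructor
  · intro hx
    rw [Set.mem_iUnion] at hx
    obtain ⟨n, hn⟩ := hx
    cases n with
    | zero => left; simpa using hn
    | succ n =>
      right
      rw [Set.mem_iUnion]
      refine ⟨n, ?_⟩
      rwa [Function.iterate_succ', Set.image_comp] at hn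
  · rintro (hx | hx)
    · rw [Set.mem_iUnion]; exact ⟨0, by simpa using hx⟩
    · rw [Set.mem_iUnion] at hx ⊢
      obtain ⟨n, hn⟩ := hx
      refine ⟨n + 1, ?_⟩
      rwa [Function.iterate_succ', Set.image_comp]

lemma KK_sub (m : ℕ) (hm : 2 ≤ m) : KK m ⊆ D0 m := by
  have h : ∀ n : ℕ, (kap m)^[n] '' (K0 m) ⊆ D0 m := by
    intro n
    induction n with
    | zero =>
      simp only [Function.iterate_zero, Set.image_id]
      exact fun x hx => hx.1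
    | succ n ih =>
      rw [Function.iterate_succ', Set.image_comp]
      exact (Set.image_mono (ih.trans (D0_sub m hm))).trans (kap_image_sub m (by omega))
  exact Set.iUnion_subset h

lemma measurable_D0 (m : ℕ) : MeasurableSet (D0 m) := by
  have h : Measurable (fun x : ℝ => |x|) := continuous_abs.measurable
  exact (measurableSet_le measurable_const h).inter (measurableSet_lt h measurable_const)

lemma measurable_KK (m : ℕ) : MeasurableSet (KK m) := by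
  have h0 : MeasurableSet (K0 m) :=
    (measurable_D0 m).diff ((kap_emb m).measurableSet_image.2 measurableSet_Ico)
  refine MeasurableSet.iUnion fun n => ?_
  induction n with
  | zero => simpa using h0
  | succ n ih =>
    rw [Function.iterate_succ', Set.image_comp]
    exact (kap_emb m).measurableSet_image.2 ih

lemma measurable_GG (m : ℕ) : MeasurableSet (GG m) := measurableSet_Ico.diff (measurable_KK m)

lemma D0_diff (m : ℕ) (hm : 2 ≤ m) : D0 m \ KK m = kap m '' GG m := by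
  unfold GG
  rw [Set.image_sdiff (kap_inj m)]
  ext x
  constructor
  · rintro ⟨h1, h2⟩
    rw [KK_eq, Set.mem_union, not_or] at h2
    refine ⟨?_, h2.2⟩
    by_contra hc
    exact h2.1 ⟨h1, hc⟩
  · rintro ⟨h1, h2⟩
    refine ⟨kap_image_sub m (by omega) h1, ?_⟩
    rw [KK_eq, Set.mem_union, not_or]
    exact ⟨fun h => h.2 h1, h2⟩

/-- The translated set. -/
def LL (m : ℕ) : Set ℝ := {y | y - (2 ^ m + 1) ∈ GG m}

/-- The dilation invariant set. -/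
def Om (m : ℕ) : Set ℝ := {y | ∃ j : ℤ, (2:ℝ) ^ (-j) * y ∈ KK m}

lemma LL_iff (m : ℕ) (hm : 2 ≤ m) (y : ℝ) : y ∈ LL m ↔ (2:ℝ) ^ (-(2 * m : ℤ)) * y ∈ D0 m \ KK m := by
  rw [D0_diff m hm]
  have h : (2:ℝ) ^ (-(2 * m : ℤ)) * y = kap m (y - (2 ^ m + 1)) := by
    unfold kap; ring
  rw [h, (kap_inj m).mem_set_image]
  rfl

lemma D0_unique (m : ℕ) {x : ℝ} {i j : ℤ} (hi : (2:ℝ) ^ i * x ∈ D0 m) (hj : (2:ℝ) ^ j * x ∈ D0 m) :
    i = j := by
  have key : ∀ i j : ℤ, (2:ℝ) ^ i * x ∈ D0 m → (2:ℝ) ^ j * x ∈ D0 m → i < j → False := by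
    intro i j hi hj hij
    have h1 := hi.1
    have h2 := hj.2
    rw [abs_mul, abs_of_pos (by positivity)] at h1 h2
    have h3 : (2:ℝ) ^ i * 2 ≤ 2 ^ j := by
      have : (2:ℝ) ^ i * 2 = 2 ^ (i + 1) := by rw [zpow_add₀ (by norm_num), zpow_one]
      rw [this]
      exact zpow_le_zpow_right₀ (by norm_num) (by omega)
    have h4 : (2:ℝ) ^ i * 2 * |x| ≤ 2 ^ j * |x| := mul_le_mul_of_nonneg_right h3 (abs_nonneg x)
    rw [zpow_add₀ (by norm_num), zpow_one] at h2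
    nlinarith
  rcases lt_trichotomy i j with h | h | h
  · exact (key i j hi hj h).elim
  · exact h
  · exact (key j i hj hi h).elim

lemma D0_exists (m : ℕ) {x : ℝ} (hx : x ≠ 0) : ∃ j : ℤ, (2:ℝ) ^ j * x ∈ D0 m := by
  obtain ⟨n, hn⟩ := exists_mem_Ico_zpow (y := (2:ℝ)) (abs_pos.2 hx) (by norm_num)
  refine ⟨-m - n, ?_⟩
  have h2 : (0:ℝ) < 2 ^ (-(m:ℤ) - n) := by positivity
  constructor
  · rw [abs_mul, abs_of_pos h2]
    calc (2:ℝ) ^ (-(m:ℤ)) = 2 ^ (-(m:ℤ) - n) * 2 ^ n := by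
          rw [← zpow_add₀ (by norm_num)]; congr 1; ring
      _ ≤ _ := mul_le_mul_of_nonneg_left hn.1 h2.le
  · rw [abs_mul, abs_of_pos h2]
    calc (2:ℝ) ^ (-(m:ℤ) - n) * |x| < 2 ^ (-(m:ℤ) - n) * 2 ^ (n + 1) :=
          mul_lt_mul_of_pos_left hn.2 h2
      _ = 2 ^ (-(m:ℤ) + 1) := by
          rw [← zpow_add₀ (by norm_num)]; congr 1; ring

lemma LL_not_Om (m : ℕ) (hm : 2 ≤ m) {y : ℝ} (hy : y ∈ LL m) : y ∉ Om m := by
  rintro ⟨j, hj⟩
  rw [LL_iff m hm] at hy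
  have := D0_unique m hy.1 (KK_sub m hm hj)
  rw [this] at hy
  exact hy.2 hj

lemma Om_dil (m : ℕ) (j : ℤ) (y : ℝ) : (2:ℝ) ^ j * y ∈ Om m ↔ y ∈ Om m := by
  constructor
  · rintro ⟨i, hi⟩
    refine ⟨i - j, ?_⟩
    rw [← mul_assoc, ← zpow_add₀ (by norm_num)] at hi
    convert hi using 3; ring
  · rintro ⟨i, hi⟩
    refine ⟨i + j, ?_⟩
    rw [← mul_assoc, ← zpow_add₀ (by norm_num)]
    convert hi using 3; ring

lemma KK_sub_Om (m : ℕ) : KK m ⊆ Om m := fun y hy => ⟨0, by simpa using hy⟩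

/-- The two sets have dyadic dilates with disjoint supports. -/
lemma KL_unique (m : ℕ) (hm : 2 ≤ m) {ξ : ℝ} {i j : ℤ}
    (hi : (2:ℝ) ^ (-i) * ξ ∈ KK m ∪ LL m) (hj : (2:ℝ) ^ (-j) * ξ ∈ KK m ∪ LL m) : i = j := by
  have conv : ∀ i : ℤ, (2:ℝ) ^ (-(2 * m : ℤ)) * ((2:ℝ) ^ (-i) * ξ) = (2:ℝ) ^ (-(2 * m : ℤ) - i) * ξ := by
    intro i
    rw [← mul_assoc, ← zpow_add₀ (by norm_num)]; rfl
  rcases hi with hi | hi <;> rcases hj with hj | hj
  · have := D0_unique m (KK_sub m hm hi) (KK_sub m hm hj); omega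
  · rw [LL_iff m hm, conv] at hj
    have := D0_unique m (KK_sub m hm hi) hj.1
    rw [← this] at hj
    exact (hj.2 hi).elim
  · rw [LL_iff m hm, conv] at hi
    have := D0_unique m (KK_sub m hm hj) hi.1
    rw [← this] at hi
    exact (hi.2 hj).elim
  · rw [LL_iff m hm, conv] at hi hj
    have := D0_unique m hi.1 hj.1; omega

lemma KL_exists (m : ℕ) (hm : 2 ≤ m) {ξ : ℝ} (hξ : ξ ≠ 0) : ∃ j : ℤ, (2:ℝ) ^ (-j) * ξ ∈ KK m ∪ LL m := by
  obtain ⟨j, hj⟩ := D0_exists m hξ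
  by_cases h : (2:ℝ) ^ j * ξ ∈ KK m
  · exact ⟨-j, by left; simpa using h⟩
  · refine ⟨-(j + 2 * m), ?_⟩
    right
    rw [LL_iff m hm, ← mul_assoc, ← zpow_add₀ (by norm_num)]
    have : (-(2 * m : ℤ) + -(-(j + 2 * m))) = j := by ring
    rw [this]
    exact ⟨hj, h⟩

end sets

end Pool.Agent.Helper704.RW
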