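import Mathlib
import Pool.Agent.Helper704.RW.Base
set_option autoImplicit false
set_option linter.unusedSectionVars false
open MeasureTheory
open scoped FourierTransform ENNReal
open Pool.Agent.Helper704

namespace Pool.Agent.Helper704.RW

section fourier

lemma restrict_QQ : volume.restrict QQ = volume.restrict (Set.Ioc (-1 / 2 : ℝ) (1 / 2)) := by
  unfold QQ
  exact Measure.restrict_congr_set Ico_ae_eq_Ioc

lemma fourier_zero (P : ℝ → ℂ) (hP : MemLp P 2 (volume.restrict QQ))
    (h : ∀ k : ℤ, ∫ η in QQ, ex k η * P η = 0) : ∀ᵐ η ∂(volume.restrict QQ), P η = 0 := by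
  rw [restrict_QQ] at *
  have hab : (-1 / 2 : ℝ) < 1 / 2 := by norm_num
  have h1 := hasSum_sq_fourierCoeffOn hab hP
  have h2 : ∀ n : ℤ, fourierCoeffOn hab P n = 0 := by
    intro n
    rw [fourierCoeffOn_eq_integral, intervalIntegral.integral_of_le hab.le]
    have h3 : ∀ x : ℝ, fourier (-n) (x : AddCircle ((1:ℝ) / 2 - -1 / 2)) • P x = ex n x * P x := by
      intro x
      rw [fourier_coe_apply, smul_eq_mul]
      congr 1
      unfold ex
      congr 1
      push_cast
      ring
    simp_rw [h3]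
    rw [h n]; simp
  simp_rw [h2] at h1
  have h4 : ∫ x in (-1 / 2 : ℝ)..(1 / 2), ‖P x‖ ^ 2 = 0 := by
    have h0 : HasSum (fun _ : ℤ => ‖(0:ℂ)‖ ^ 2) (0:ℝ) := by simp
    have := h1.unique h0
    rw [smul_eq_mul, mul_eq_zero] at this
    rcases this with h | h
    · norm_num at h
    · exact h
  rw [intervalIntegral.integral_of_le hab.le,
    integral_eq_zero_iff_of_nonneg (fun x => by positivity)
      ((memLp_two_iff_integrable_sq_norm hP.1).1 hP)] at h4
  filter_upwards [h4] with x hx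
  simpa using hx

lemma integral_ex (k : ℤ) : ∫ η in QQ, ex k η = if k = 0 then 1 else 0 := by
  rw [restrict_QQ, ← intervalIntegral.integral_of_le (by norm_num)]
  by_cases hk : k = 0
  · subst hk
    simp [ex]
    norm_num
  · rw [if_neg hk]
    have hc : (-2 * Real.pi * k * Complex.I : ℂ) ≠ 0 := by
      have : (Real.pi : ℂ) ≠ 0 := by exact_mod_cast Real.pi_ne_zero
      have : (k : ℂ) ≠ 0 := by exact_mod_cast hk
      simp [*]
    have h1 : ∀ x : ℝ, ex k x = Complex.exp ((-2 * Real.pi * k * Complex.I : ℂ) * x) := by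
      intro x; unfold ex; congr 1; push_cast; ring
    simp_rw [h1]
    rw [integral_exp_mul_complex hc]
    have h2 : Complex.exp ((-2 * Real.pi * k * Complex.I : ℂ) * ((1 / 2 : ℝ) : ℂ)) =
        Complex.exp ((-2 * Real.pi * k * Complex.I : ℂ) * ((-1 / 2 : ℝ) : ℂ)) := by
      have : ((-2 * Real.pi * k * Complex.I : ℂ) * ((1 / 2 : ℝ) : ℂ)) =
          ((-2 * Real.pi * k * Complex.I : ℂ) * ((-1 / 2 : ℝ) : ℂ)) +
            ((-k : ℤ) : ℂ) * (2 * Real.pi * Complex.I) := by push_cast; ring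
      rw [this, Complex.exp_add, Complex.exp_int_mul_two_pi_mul_I, mul_one]
    rw [h2]; simp

/-- Integrals of periodic functions over the wavelet set, in two pieces. -/
lemma lintegral_LL (m : ℕ) (F : ℝ → ℝ≥0∞) (hF : ∀ (η : ℝ) (l : ℤ), F (η + l) = F η) :
    ∫⁻ η in LL m, F η = ∫⁻ η in GG m, F η := by
  have h := (measurePreserving_sub_right (volume : Measure ℝ)
    ((2 ^ m + 1 : ℤ) : ℝ)).setLIntegral_comp_preimage_emb
      (measurableEmbedding_subRight ((2 ^ m + 1 : ℤ) : ℝ)) F (GG m)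
  rw [← h]
  have h1 : LL m = (fun x : ℝ => x - ((2 ^ m + 1 : ℤ) : ℝ)) ⁻¹' GG m := by
    unfold LL; push_cast; rfl
  rw [← h1]
  congr 1
  funext η
  have := hF (η - ((2 ^ m + 1 : ℤ) : ℝ)) (2 ^ m + 1)
  rw [sub_add_cancel] at this
  exact this

lemma lintegral_GG_shift (m : ℕ) (l : ℤ) (F : ℝ → ℝ≥0∞) (hF : ∀ (η : ℝ) (l : ℤ), F (η + l) = F η) :
    ∫⁻ η in {y : ℝ | y - l ∈ GG m}, F η = ∫⁻ η in GG m, F η := by
  have h := (measurePreserving_sub_right (volume : Measure ℝ) (l : ℝ)).setLIntegral_comp_preimage_emb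
      (measurableEmbedding_subRight (l : ℝ)) F (GG m)
  rw [← h]
  have h1 : {y : ℝ | y - l ∈ GG m} = (fun x : ℝ => x - (l : ℝ)) ⁻¹' GG m := rfl
  rw [← h1]
  congr 1
  funext η
  have := hF (η - (l : ℝ)) l
  rw [sub_add_cancel] at this
  exact this

end fourier


section basis

lemma measurable_LL (m : ℕ) : MeasurableSet (LL m) := by
  have h1 : LL m = (fun x : ℝ => x - ((2:ℝ) ^ m + 1)) ⁻¹' GG m := rfl
  rw [h1]
  exact (measurable_GG m).preimage (by fun_prop)

lemma vol_KK (m : ℕ) (hm : 2 ≤ m) : volume (KK m) ≤ ENNReal.ofReal (4 * (1 / 2) ^ m) := by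
  have h1 : KK m ⊆ Set.Ioo (-(2:ℝ) ^ (-(m:ℤ) + 1)) (2 ^ (-(m:ℤ) + 1)) := by
    intro x hx
    have := (KK_sub m hm hx).2
    rw [abs_lt] at this
    exact this
  refine (measure_mono h1).trans ?_
  rw [Real.volume_Ioo]
  apply ENNReal.ofReal_le_ofReal
  rw [zpow_add₀ (by norm_num), zpow_neg, zpow_natCast, one_div, inv_pow]
  norm_num
  ring_nf
  exact le_rfl

lemma vol_GG (m : ℕ) : volume (GG m) ≤ 1 := by
  refine (measure_mono (Set.sdiff_subset)).trans ?_
  unfold QQ
  rw [Real.volume_Ico]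
  norm_num

lemma vol_LL (m : ℕ) : volume (LL m) ≤ 1 := by
  have := lintegral_LL m (fun _ => 1) (fun _ _ => rfl)
  simp only [lintegral_const, MeasurableSet.univ, Measure.restrict_apply, Set.univ_inter, one_mul] at this
  rw [this]; exact vol_GG m

lemma memLp_ind {S : Set ℝ} (hS : MeasurableSet S) (hv : volume S ≠ ⊤) :
    MemLp (S.indicator (fun _ => (1:ℂ))) 2 volume := by
  exact memLp_indicator_const 2 hS 1 (Or.inr hv)

lemma memLp_phiL (m : ℕ) : MemLp ((LL m).indicator (fun _ => (1:ℂ))) 2 volume :=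
  memLp_ind (measurable_LL m) (ne_top_of_le_ne_top ENNReal.one_ne_top (vol_LL m))

lemma memLp_phiK (m : ℕ) (hm : 2 ≤ m) : MemLp ((KK m).indicator (fun _ => (1:ℂ))) 2 volume :=
  memLp_ind (measurable_KK m) (ne_top_of_le_ne_top ENNReal.ofReal_ne_top (vol_KK m hm))

lemma disj_KL (m : ℕ) (hm : 2 ≤ m) : Disjoint (KK m) (LL m) := by
  rw [Set.disjoint_left]
  intro x hx hy
  exact LL_not_Om m hm hy (KK_sub_Om m hx)

lemma memLp_phiM (m : ℕ) (hm : 2 ≤ m) :
    MemLp ((KK m ∪ LL m).indicator (fun _ => (1:ℂ))) 2 volume := by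
  refine memLp_ind ((measurable_KK m).union (measurable_LL m)) ?_
  exact ne_top_of_le_ne_top (ENNReal.add_ne_top.2 ⟨ne_top_of_le_ne_top ENNReal.ofReal_ne_top (vol_KK m hm),
    ne_top_of_le_ne_top ENNReal.one_ne_top (vol_LL m)⟩) (measure_union_le _ _)

/-- The transplanted function on the base interval. -/
noncomputable def pull (m : ℕ) (F : ℝ → ℂ) : ℝ → ℂ := fun η =>
  (KK m).indicator F η + (GG m).indicator (fun η => F (η + (2 ^ m + 1))) η

lemma setIntegral_LL (m : ℕ) (F : ℝ → ℂ) :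
    ∫ η in LL m, F η = ∫ η in GG m, F (η + (2 ^ m + 1)) := by
  have h := (measurePreserving_sub_right (volume : Measure ℝ)
    ((2:ℝ) ^ m + 1)).setIntegral_preimage_emb
      (measurableEmbedding_subRight ((2:ℝ) ^ m + 1)) (fun η => F (η + (2 ^ m + 1))) (GG m)
  rw [← h]
  have h1 : LL m = (fun x : ℝ => x - ((2:ℝ) ^ m + 1)) ⁻¹' GG m := rfl
  rw [← h1]
  congr 1
  funext η
  rw [sub_add_cancel]

lemma integrableOn_LL (m : ℕ) (F : ℝ → ℂ) (hF : IntegrableOn F (LL m)) :
    IntegrableOn (fun η => F (η + (2 ^ m + 1))) (GG m) := by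
  have h := (measurePreserving_sub_right (volume : Measure ℝ)
    ((2:ℝ) ^ m + 1)).integrableOn_comp_preimage
      (measurableEmbedding_subRight ((2:ℝ) ^ m + 1)) (f := fun η => F (η + (2 ^ m + 1))) (s := GG m)
  rw [← h]
  have h1 : LL m = (fun x : ℝ => x - ((2:ℝ) ^ m + 1)) ⁻¹' GG m := rfl
  rw [← h1]
  refine hF.congr_fun_ae ?_
  filter_upwards with η
  simp

/-- Integration of a function over the wavelet set. -/
lemma integral_M (m : ℕ) (hm : 2 ≤ m) (F : ℝ → ℂ) (hF : IntegrableOn F (KK m ∪ LL m)) :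
    ∫ η in KK m ∪ LL m, F η = ∫ η in QQ, pull m F η := by
  have hK : KK m ⊆ QQ := (KK_sub m hm).trans (D0_sub m hm)
  have hG : GG m ⊆ QQ := Set.sdiff_subset
  have hFK : IntegrableOn F (KK m) := hF.mono_set Set.subset_union_left
  have hFL : IntegrableOn F (LL m) := hF.mono_set Set.subset_union_right
  have hFG := integrableOn_LL m F hFL
  rw [setIntegral_union (disj_KL m hm) (measurable_LL m) hFK hFL, setIntegral_LL]
  unfold pull
  rw [integral_add]
  · rw [setIntegral_indicator (measurable_KK m), setIntegral_indicator (measurable_GG m),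
      Set.inter_eq_self_of_subset_right hK, Set.inter_eq_self_of_subset_right hG]
  · exact ((integrable_indicator_iff (measurable_KK m)).2 hFK).integrableOn
  · exact ((integrable_indicator_iff (measurable_GG m)).2 hFG).integrableOn

lemma pull_per (m : ℕ) (F : ℝ → ℂ) (hF : ∀ (η : ℝ) (l : ℤ), F (η + l) = F η) {η : ℝ}
    (hη : η ∈ QQ) : pull m F η = F η := by
  unfold pull
  have h := hF η (2 ^ m + 1)
  push_cast at h
  by_cases h1 : η ∈ KK m
  · rw [Set.indicator_of_mem h1, Set.indicator_of_notMem (fun h => h.2 h1), add_zero]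
  · rw [Set.indicator_of_notMem h1, Set.indicator_of_mem (show η ∈ GG m from ⟨hη, h1⟩), zero_add, h]

lemma measurableSet_QQ : MeasurableSet QQ := measurableSet_Ico

lemma integral_M_ex (m : ℕ) (hm : 2 ≤ m) (k : ℤ) :
    ∫ η in KK m ∪ LL m, ex k η = if k = 0 then 1 else 0 := by
  rw [integral_M m hm, ← integral_ex k]
  · exact setIntegral_congr_fun measurableSet_QQ fun η hη => pull_per m _ (ex_add_int k) hη
  · refine Measure.integrableOn_of_bounded (M := 1) ?_ (measurable_ex k).aestronglyMeasurable ?_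
    · exact ne_top_of_le_ne_top (ENNReal.add_ne_top.2 ⟨ne_top_of_le_ne_top ENNReal.ofReal_ne_top
        (vol_KK m hm), ne_top_of_le_ne_top ENNReal.one_ne_top (vol_LL m)⟩) (measure_union_le _ _)
    · filter_upwards with η
      rw [norm_ex]

/-- The orthonormal family. -/
noncomputable def eM (m : ℕ) (hm : 2 ≤ m) (p : ℤ × ℤ) : HH := Dh p ((memLp_phiM m hm).toLp _)

lemma inner_toLp (f g : ℝ → ℂ) (hf : MemLp f 2 volume) (hg : MemLp g 2 volume) :
    inner ℂ (hf.toLp f) (hg.toLp g) = ∫ ξ, (starRingEnd ℂ) (f ξ) * g ξ := by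
  rw [L2.inner_def]
  apply integral_congr_ae
  filter_upwards [hf.coeFn_toLp, hg.coeFn_toLp] with x h1 h2
  rw [h1, h2]
  simp [mul_comm]

lemma orthonormal_eM (m : ℕ) (hm : 2 ≤ m) : Orthonormal ℂ (eM m hm) := by
  rw [orthonormal_iff_ite]
  rintro ⟨j, k⟩ ⟨j', k'⟩
  unfold eM
  rw [Dh_toLp, Dh_toLp, inner_toLp]
  by_cases hj : j = j'
  · subst hj
    have h1 : ∀ ξ, (starRingEnd ℂ) (fq (j, k) ((KK m ∪ LL m).indicator fun _ => 1) ξ) *
        fq (j, k') ((KK m ∪ LL m).indicator fun _ => 1) ξ =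
        (fun η => ((2:ℝ) ^ (-j) : ℝ) • (KK m ∪ LL m).indicator (ex (k' - k)) η) (dy (-j) ξ - 0) := by
      intro ξ
      unfold fq
      simp only [dy_apply, sub_zero]
      by_cases h : (2:ℝ) ^ (-j) * ξ ∈ KK m ∪ LL m
      · rw [Set.indicator_of_mem h, Set.indicator_of_mem h]
        rw [map_mul, map_mul, Complex.conj_ofReal, map_one]
        have h2 : (starRingEnd ℂ) (ex k ((2:ℝ) ^ (-j) * ξ)) * ex k' ((2:ℝ) ^ (-j) * ξ) =
            ex (k' - k) ((2:ℝ) ^ (-j) * ξ) := by
          unfold ex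
          rw [← Complex.exp_conj, ← Complex.exp_add]
          congr 1
          rw [map_mul, Complex.conj_ofReal, Complex.conj_I]
          push_cast; ring
        have h3 : ((Real.sqrt ((2:ℝ) ^ (-j)) : ℝ) : ℂ) * ((Real.sqrt ((2:ℝ) ^ (-j)) : ℝ) : ℂ) =
            (((2:ℝ) ^ (-j) : ℝ) : ℂ) := by
          rw [← Complex.ofReal_mul, Real.mul_self_sqrt (by positivity)]
        rw [Complex.real_smul, ← h2, ← h3]
        ring
      · rw [Set.indicator_of_notMem h, Set.indicator_of_notMem h]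
        simp
    simp_rw [h1]
    rw [integral_aff (dy (-j)) 0 (fun η => ((2:ℝ) ^ (-j) : ℝ) •
      (KK m ∪ LL m).indicator (ex (k' - k)) η), integral_smul,
      integral_indicator ((measurable_KK m).union (measurable_LL m)), integral_M_ex m hm,
      adet_dy, smul_smul, inv_mul_cancel₀ (by positivity), one_smul]
    have h4 : k' - k = 0 ↔ ((j, k) : ℤ × ℤ) = (j, k') := by
      simp only [Prod.mk.injEq, true_and]; omega
    simp only [h4]
  · rw [if_neg (by intro h; exact hj (congrArg Prod.fst h))]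
    have h1 : ∀ ξ, (starRingEnd ℂ) (fq (j, k) ((KK m ∪ LL m).indicator fun _ => 1) ξ) *
        fq (j', k') ((KK m ∪ LL m).indicator fun _ => 1) ξ = 0 := by
      intro ξ
      unfold fq
      simp only
      by_cases h : (2:ℝ) ^ (-j) * ξ ∈ KK m ∪ LL m
      · by_cases h' : (2:ℝ) ^ (-j') * ξ ∈ KK m ∪ LL m
        · exact (hj (KL_unique m hm h h')).elim
        · rw [Set.indicator_of_notMem h']; simp
      · rw [Set.indicator_of_notMem h]; simp
    simp_rw [h1]
    simp


lemma complete_eM (m : ℕ) (hm : 2 ≤ m) (u : HH) (hu : ∀ p, inner ℂ (eM m hm p) u = 0) : u = 0 := by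
  have hu2 : MemLp (u : ℝ → ℂ) 2 volume := Lp.memLp u
  have hM : MeasurableSet (KK m ∪ LL m) := (measurable_KK m).union (measurable_LL m)
  have hMf : volume (KK m ∪ LL m) ≠ ⊤ :=
    ne_top_of_le_ne_top (ENNReal.add_ne_top.2 ⟨ne_top_of_le_ne_top ENNReal.ofReal_ne_top
        (vol_KK m hm), ne_top_of_le_ne_top ENNReal.one_ne_top (vol_LL m)⟩) (measure_union_le _ _)
  have hK : KK m ⊆ QQ := (KK_sub m hm).trans (D0_sub m hm)
  have hG : GG m ⊆ QQ := Set.sdiff_subset
  -- the rescaled function at each level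
  have main : ∀ j : ℤ, ∀ᵐ ξ : ℝ, (2:ℝ) ^ (-j) * ξ ∈ KK m ∪ LL m → u ξ = 0 := by
    intro j
    set v : ℝ → ℂ := fun η => u ((2:ℝ) ^ j * η) with hv
    have hv2 : MemLp v 2 volume := by
      have := memLp_wco (dy j) 0 (wT (dy j)) (wt_wT _) hu2
      have h3 : v = fun x => ((Real.sqrt ((2:ℝ) ^ j))⁻¹ : ℂ) * (wT (dy j) x * u (dy j x - 0)) := by
        funext x
        simp only [hv, wT, adet_dy, dy_apply, sub_zero]
        rw [← mul_assoc, inv_mul_cancel₀, one_mul]
        have : Real.sqrt ((2:ℝ) ^ j) ≠ 0 := (Real.sqrt_pos.2 (by positivity)).ne'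
        exact_mod_cast this
      rw [h3]
      exact this.const_mul _
    have hvi : IntegrableOn v (KK m ∪ LL m) :=
      haveI : IsFiniteMeasure (volume.restrict (KK m ∪ LL m)) := ⟨by
        rw [Measure.restrict_apply_univ]; exact lt_top_iff_ne_top.2 hMf⟩
      (hv2.restrict _).integrable (by norm_num)
    have hexv : ∀ k : ℤ, IntegrableOn (fun η => ex k η * v η) (KK m ∪ LL m) := by
      intro k
      refine Integrable.bdd_mul (c := 1) hvi (measurable_ex k).aestronglyMeasurable ?_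
      filter_upwards with η
      rw [norm_ex]
    have hzero : ∀ k : ℤ, ∫ η in KK m ∪ LL m, ex k η * v η = 0 := by
      intro k
      have h1 := hu (j, -k)
      unfold eM at h1
      rw [Dh_toLp] at h1
      have h2 := inner_toLp _ _ (memLp_fq (j, -k) (memLp_phiM m hm)) hu2
      rw [Lp.toLp_coeFn, h1] at h2
      have h3 : ∀ ξ, (starRingEnd ℂ) (fq (j, -k) ((KK m ∪ LL m).indicator fun _ => 1) ξ) * u ξ =
          (fun η => ((Real.sqrt ((2:ℝ) ^ (-j)) : ℝ) : ℂ) *
            (KK m ∪ LL m).indicator (fun η => ex k η * v η) η) (dy (-j) ξ - 0) := by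
        intro ξ
        unfold fq
        simp only [dy_apply, sub_zero]
        by_cases h : (2:ℝ) ^ (-j) * ξ ∈ KK m ∪ LL m
        · rw [Set.indicator_of_mem h, Set.indicator_of_mem h]
          rw [map_mul, map_mul, Complex.conj_ofReal, map_one]
          have h4 : (starRingEnd ℂ) (ex (-k) ((2:ℝ) ^ (-j) * ξ)) = ex k ((2:ℝ) ^ (-j) * ξ) := by
            unfold ex
            rw [← Complex.exp_conj]
            congr 1
            rw [map_mul, Complex.conj_ofReal, Complex.conj_I]
            push_cast; ring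
          have h5 : v ((2:ℝ) ^ (-j) * ξ) = u ξ := by
            simp only [hv]
            rw [← mul_assoc, ← zpow_add₀ (by norm_num)]
            simp
          rw [h4, h5]; ring
        · rw [Set.indicator_of_notMem h, Set.indicator_of_notMem h]
          simp
      simp_rw [h3] at h2
      rw [integral_aff (dy (-j)) 0 (fun η => ((Real.sqrt ((2:ℝ) ^ (-j)) : ℝ) : ℂ) *
            (KK m ∪ LL m).indicator (fun η => ex k η * v η) η), integral_const_mul,
            integral_indicator hM] at h2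
      have h6 : Real.sqrt ((2:ℝ) ^ (-j)) ≠ 0 := (Real.sqrt_pos.2 (by positivity)).ne'
      have h7 : (adet (dy (-j)))⁻¹ ≠ 0 := inv_ne_zero (adet_pos _).ne'
      have h8 := (smul_eq_zero.1 h2.symm).resolve_left h7
      exact (mul_eq_zero.1 h8).resolve_left (by exact_mod_cast h6)
    -- the transplanted function vanishes
    have hpull : ∀ k : ℤ, ∫ η in QQ, ex k η * pull m v η = 0 := by
      intro k
      rw [← hzero k, integral_M m hm _ (hexv k)]
      refine setIntegral_congr_fun measurableSet_QQ fun η hη => ?_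
      unfold pull
      have h := ex_add_int k η (2 ^ m + 1)
      push_cast at h
      simp only
      by_cases h1 : η ∈ KK m
      · rw [Set.indicator_of_mem h1, Set.indicator_of_notMem (fun h => h.2 h1),
          Set.indicator_of_mem h1, Set.indicator_of_notMem (fun h => h.2 h1)]
        simp
      · have h2 : η ∈ GG m := ⟨hη, h1⟩
        rw [Set.indicator_of_notMem h1, Set.indicator_of_mem h2,
          Set.indicator_of_notMem h1, Set.indicator_of_mem h2, h]
        simp
    have hshift : MemLp (fun η => v (η + (2 ^ m + 1))) 2 volume :=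
      hv2.comp_measurePreserving (measurePreserving_add_right volume ((2:ℝ) ^ m + 1))
    have hpm : MemLp (pull m v) 2 (volume.restrict QQ) := by
      refine MemLp.restrict _ ?_
      unfold pull
      exact (hv2.indicator (measurable_KK m)).add (hshift.indicator (measurable_GG m))
    have h0 := fourier_zero _ hpm hpull
    rw [ae_restrict_iff' measurableSet_QQ] at h0
    have hKv : ∀ᵐ η : ℝ, η ∈ KK m → v η = 0 := by
      filter_upwards [h0] with η hη h1
      have := hη (hK h1)
      unfold pull at this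
      rwa [Set.indicator_of_mem h1, Set.indicator_of_notMem (fun h => h.2 h1), add_zero] at this
    have hGv : ∀ᵐ η : ℝ, η ∈ GG m → v (η + (2 ^ m + 1)) = 0 := by
      filter_upwards [h0] with η hη h1
      have := hη (hG h1)
      unfold pull at this
      rwa [Set.indicator_of_mem h1, Set.indicator_of_notMem h1.2, zero_add] at this
    have hLv : ∀ᵐ η : ℝ, η ∈ LL m → v η = 0 := by
      have q := (measurePreserving_sub_right (volume : Measure ℝ) ((2:ℝ) ^ m + 1)).quasiMeasurePreserving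
      filter_upwards [q.ae hGv] with η hη h1
      have := hη h1
      rwa [sub_add_cancel] at this
    have hMv : ∀ᵐ η : ℝ, η ∈ KK m ∪ LL m → v η = 0 := by
      filter_upwards [hKv, hLv] with η h1 h2 h3
      exact h3.elim h1 h2
    filter_upwards [(qmp_aff (dy (-j)) 0).ae hMv] with ξ hξ h1
    have h2 : dy (-j) ξ - 0 = (2:ℝ) ^ (-j) * ξ := by rw [sub_zero]; rfl
    rw [h2] at hξ
    have h3 := hξ h1
    simp only [hv] at h3
    rw [← mul_assoc, ← zpow_add₀ (by norm_num)] at h3
    simpa using h3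
  have hall : ∀ᵐ ξ : ℝ, ∀ j : ℤ, (2:ℝ) ^ (-j) * ξ ∈ KK m ∪ LL m → u ξ = 0 := ae_all_iff.2 main
  have hne : ∀ᵐ ξ : ℝ, ξ ≠ 0 := by
    have : (volume : Measure ℝ) {0} = 0 := by simp
    rw [ae_iff]; simpa using this
  rw [Lp.eq_zero_iff_ae_eq_zero]
  filter_upwards [hall, hne] with ξ h1 h2
  obtain ⟨j, hj⟩ := KL_exists m hm h2
  exact h1 j hj

lemma dense_eM (m : ℕ) (hm : 2 ≤ m) (x : HH) (η : ℝ) (hη : 0 < η) :
    ∃ (s : Finset (ℤ × ℤ)) (c : ℤ × ℤ → ℂ), ‖x - ∑ p ∈ s, c p • eM m hm p‖ < η := by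
  have h1 : (Submodule.span ℂ (Set.range (eM m hm))).topologicalClosure = ⊤ := by
    rw [Submodule.topologicalClosure_eq_top_iff, Submodule.eq_bot_iff]
    intro u hu
    apply complete_eM m hm
    intro p
    exact (Submodule.mem_orthogonal _ u).1 hu _ (Submodule.subset_span ⟨p, rfl⟩)
  have h2 : x ∈ closure ((Submodule.span ℂ (Set.range (eM m hm)) : Submodule ℂ HH) : Set HH) := by
    rw [← Submodule.topologicalClosure_coe, h1]; trivial
  rw [Metric.mem_closure_iff] at h2
  obtain ⟨y, hy, hxy⟩ := h2 η hη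
  obtain ⟨c, rfl⟩ := Finsupp.mem_span_range_iff_exists_finsupp.1 hy
  exact ⟨c.support, c, by rwa [dist_eq_norm] at hxy⟩

end basis

end Pool.Agent.Helper704.RW
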