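import Mathlib
import Pool.Agent.Helper704.RW.Basis
set_option autoImplicit false
set_option linter.unusedSectionVars false
open MeasureTheory
open scoped FourierTransform ENNReal
open Pool.Agent.Helper704

namespace Pool.Agent.Helper704.RW

section pieces

noncomputable def aM (m : ℕ) : HH := (memLp_phiL m).toLp _
noncomputable def bM (m : ℕ) (hm : 2 ≤ m) : HH := (memLp_phiK m hm).toLp _

lemma eM_eq (m : ℕ) (hm : 2 ≤ m) (p : ℤ × ℤ) : eM m hm p = Dh p (aM m) + Dh p (bM m hm) := by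
  unfold eM
  rw [← map_add]
  congr 1
  unfold aM bM
  rw [← MemLp.toLp_add]
  apply MemLp.toLp_congr
  refine Filter.Eventually.of_forall fun ξ => ?_
  simp only [Pi.add_apply]
  by_cases h1 : ξ ∈ KK m
  · have h2 : ξ ∉ LL m := fun h => Set.disjoint_left.1 (disj_KL m hm) h1 h
    rw [Set.indicator_of_mem (show ξ ∈ KK m ∪ LL m from Or.inl h1), Set.indicator_of_mem h1, Set.indicator_of_notMem h2, zero_add]
  · by_cases h2 : ξ ∈ LL m
    · rw [Set.indicator_of_mem (show ξ ∈ KK m ∪ LL m from Or.inr h2), Set.indicator_of_mem h2, Set.indicator_of_notMem h1, add_zero]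
    · rw [Set.indicator_of_notMem h1, Set.indicator_of_notMem h2, Set.indicator_of_notMem, add_zero]
      rintro (h | h)
      · exact h1 h
      · exact h2 h

lemma orth_a (m : ℕ) (hm : 2 ≤ m) (g : ℝ → ℂ) (hg : MemLp g 2 volume)
    (h : ∀ η, g η ≠ 0 → η ∈ Om m) (p q : ℤ × ℤ) :
    inner ℂ (Dh p (aM m)) (Dh q (hg.toLp g)) = 0 := by
  unfold aM
  rw [Dh_toLp, Dh_toLp, inner_toLp]
  have h1 : ∀ ξ, (starRingEnd ℂ) (fq p ((LL m).indicator fun _ => 1) ξ) * fq q g ξ = 0 := by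
    intro ξ
    unfold fq
    by_cases h2 : (2:ℝ) ^ (-p.1) * ξ ∈ LL m
    · by_cases h3 : g ((2:ℝ) ^ (-q.1) * ξ) = 0
      · rw [h3]; simp
      · have h4 := (Om_dil m _ _).1 (h _ h3)
        exact (LL_not_Om m hm h2 ((Om_dil m _ _).2 h4)).elim
    · rw [Set.indicator_of_notMem h2]; simp
  simp_rw [h1]
  simp

/-- The energy of the base system. -/
noncomputable def enG (m : ℕ) (s : Finset (ℤ × ℤ)) (c : ℤ × ℤ → ℂ) : ℝ≥0∞ :=
  ∑ j ∈ s.image Prod.fst, ∫⁻ η in GG m, ‖trig s c j η‖ₑ ^ 2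

lemma energy_a (m : ℕ) (hm : 2 ≤ m) (s : Finset (ℤ × ℤ)) (c : ℤ × ℤ → ℂ) :
    ‖∑ p ∈ s, c p • Dh p (aM m)‖ₑ ^ 2 = enG m s c := by
  unfold aM enG
  rw [energy]
  · refine Finset.sum_congr rfl fun j _ => ?_
    have h1 : ∀ η, ‖trig s c j η‖ₑ ^ 2 * ‖(LL m).indicator (fun _ => (1:ℂ)) η‖ₑ ^ 2 =
        (LL m).indicator (fun η => ‖trig s c j η‖ₑ ^ 2) η := by
      intro η
      by_cases h : η ∈ LL m
      · rw [Set.indicator_of_mem h, Set.indicator_of_mem h]; simp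
      · rw [Set.indicator_of_notMem h, Set.indicator_of_notMem h]; simp
    simp_rw [h1]
    rw [lintegral_indicator (measurable_LL m), lintegral_LL]
    intro η l
    rw [trig_add_int]
  · intro ξ j j' h1 h2
    refine KL_unique m hm (ξ := ξ) (Or.inr ?_) (Or.inr ?_)
    · by_contra hc; exact h1 (Set.indicator_of_notMem hc _)
    · by_contra hc; exact h2 (Set.indicator_of_notMem hc _)

lemma energy_piece (m : ℕ) (g : ℝ → ℂ) (hg : MemLp g 2 volume) (C : ℝ)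
    (hC : ∀ η, ‖g η‖ ≤ C) (n : ℤ) (F : Finset ℤ)
    (hsupp : ∀ η, g η ≠ 0 → ((2:ℝ) ^ n ≤ |η| ∧ |η| < 2 ^ (n + 1)) ∧ ∃ l ∈ F, η - l ∈ GG m)
    (s : Finset (ℤ × ℤ)) (c : ℤ × ℤ → ℂ) :
    ‖∑ p ∈ s, c p • Dh p (hg.toLp g)‖ₑ ^ 2 ≤ ENNReal.ofReal (C ^ 2) * F.card * enG m s c := by
  rw [energy]
  · unfold enG
    rw [Finset.mul_sum]
    refine Finset.sum_le_sum fun j _ => ?_
    have hmeas : ∀ l : ℤ, MeasurableSet {y : ℝ | y - l ∈ GG m} := fun l =>
      (measurable_GG m).preimage (by fun_prop : Measurable fun y : ℝ => y - (l:ℝ))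
    have h1 : ∀ η, ‖trig s c j η‖ₑ ^ 2 * ‖g η‖ₑ ^ 2 ≤
        ∑ l ∈ F, ENNReal.ofReal (C ^ 2) *
          {y : ℝ | y - l ∈ GG m}.indicator (fun η => ‖trig s c j η‖ₑ ^ 2) η := by
      intro η
      by_cases h : g η = 0
      · rw [h]; simp
      · obtain ⟨_, l, hl, hlG⟩ := hsupp η h
        refine le_trans ?_ (Finset.single_le_sum (f := fun l : ℤ => ENNReal.ofReal (C ^ 2) *
          {y : ℝ | y - l ∈ GG m}.indicator (fun η => ‖trig s c j η‖ₑ ^ 2) η)
          (fun _ _ => zero_le) hl)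
        rw [Set.indicator_of_mem (show η ∈ {y : ℝ | y - l ∈ GG m} from hlG), mul_comm]
        gcongr
        rw [← ofReal_norm, ← ENNReal.ofReal_pow (norm_nonneg _)]
        apply ENNReal.ofReal_le_ofReal
        exact pow_le_pow_left₀ (norm_nonneg _) (hC η) 2
    refine (lintegral_mono h1).trans ?_
    rw [lintegral_finsetSum]
    · have h2 : ∀ l ∈ F, ∫⁻ η, ENNReal.ofReal (C ^ 2) *
          {y : ℝ | y - l ∈ GG m}.indicator (fun η => ‖trig s c j η‖ₑ ^ 2) η =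
          ENNReal.ofReal (C ^ 2) * ∫⁻ η in GG m, ‖trig s c j η‖ₑ ^ 2 := by
        intro l _
        rw [lintegral_const_mul' _ _ ENNReal.ofReal_ne_top, lintegral_indicator (hmeas l),
          lintegral_GG_shift]
        intro η l'
        rw [trig_add_int]
      rw [Finset.sum_congr rfl h2, Finset.sum_const, nsmul_eq_mul]
      apply le_of_eq; ring
    · intro l _
      exact ((((measurable_trig s c j).enorm.pow_const 2)).indicator (hmeas l)).const_mul _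
  · intro ξ j j' h1 h2
    have e1 := (hsupp _ h1).1
    have e2 := (hsupp _ h2).1
    have key : ∀ i i' : ℤ, ((2:ℝ) ^ n ≤ |(2:ℝ) ^ (-i) * ξ|) → (|(2:ℝ) ^ (-i') * ξ| < 2 ^ (n + 1)) →
        -i < -i' → False := by
      intro i i' h1 h2 hlt
      rw [abs_mul, abs_of_pos (by positivity)] at h1 h2
      have h3 : (2:ℝ) ^ (-i) * 2 ≤ 2 ^ (-i') := by
        have : (2:ℝ) ^ (-i) * 2 = 2 ^ (-i + 1) := by rw [zpow_add₀ (by norm_num), zpow_one]
        rw [this]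
        exact zpow_le_zpow_right₀ (by norm_num) (by omega)
      have h4 : (2:ℝ) ^ (-i) * 2 * |ξ| ≤ 2 ^ (-i') * |ξ| := mul_le_mul_of_nonneg_right h3 (abs_nonneg ξ)
      rw [zpow_add₀ (by norm_num), zpow_one] at h2
      nlinarith
    rcases lt_trichotomy (-j) (-j') with h | h | h
    · exact (key j j' e1.1 e2.2 h).elim
    · omega
    · exact (key j' j e2.1 e1.2 h).elim


lemma coeFn_sumZ {F : ℤ → ℝ → ℂ} (hF : ∀ p, MemLp (F p) 2 volume) (s : Finset ℤ) :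
    ((∑ p ∈ s, (hF p).toLp (F p) : HH) : ℝ → ℂ) =ᵐ[volume] fun ξ => ∑ p ∈ s, F p ξ := by
  classical
  induction s using Finset.induction_on with
  | empty =>
    simp only [Finset.sum_empty]
    exact Lp.coeFn_zero ℂ 2 (volume : Measure ℝ)
  | insert p s hp ih =>
    rw [Finset.sum_insert hp]
    filter_upwards [Lp.coeFn_add ((hF p).toLp (F p)) (∑ p ∈ s, (hF p).toLp (F p)), ih,
      (hF p).coeFn_toLp] with ξ h1 h2 h4
    rw [h1, Pi.add_apply, h2, h4, Finset.sum_insert hp]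

/-- The good set. -/
def Gd (m ρ : ℕ) : Set ℝ :=
  {η | ((2:ℝ) ^ (-(ρ:ℤ)) ≤ |η| ∧ |η| < 2 ^ (ρ:ℤ)) ∧ η ∈ Om m ∧ ∃ l : ℤ, η - l ∈ GG m}

lemma measurable_Om (m : ℕ) : MeasurableSet (Om m) := by
  have : Om m = ⋃ j : ℤ, (fun y : ℝ => (2:ℝ) ^ (-j) * y) ⁻¹' KK m := by
    ext y; simp [Om]
  rw [this]
  exact MeasurableSet.iUnion fun j => (measurable_KK m).preimage (by fun_prop)

lemma measurable_Gd (m ρ : ℕ) : MeasurableSet (Gd m ρ) := by
  have h : Measurable (fun x : ℝ => |x|) := continuous_abs.measurable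
  have h1 : MeasurableSet {η : ℝ | (2:ℝ) ^ (-(ρ:ℤ)) ≤ |η| ∧ |η| < 2 ^ (ρ:ℤ)} :=
    (measurableSet_le measurable_const h).inter (measurableSet_lt h measurable_const)
  have h2 : MeasurableSet {η : ℝ | ∃ l : ℤ, η - l ∈ GG m} := by
    have : {η : ℝ | ∃ l : ℤ, η - l ∈ GG m} = ⋃ l : ℤ, (fun y : ℝ => y - l) ⁻¹' GG m := by
      ext y; simp
    rw [this]
    exact MeasurableSet.iUnion fun j => (measurable_GG m).preimage (by fun_prop)
  exact h1.inter ((measurable_Om m).inter h2)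

/-- The integers that matter. -/
noncomputable def Fl (ρ : ℕ) : Finset ℤ := Finset.Icc (-(2 ^ ρ + 1)) (2 ^ ρ + 1)

lemma mem_Fl {ρ : ℕ} {η : ℝ} {l : ℤ} (h1 : |η| < 2 ^ (ρ:ℤ)) (h2 : η - l ∈ QQ) : l ∈ Fl ρ := by
  unfold Fl
  rw [zpow_natCast, abs_lt] at h1
  have h3 : -1 / 2 ≤ η - l := h2.1
  have h4 : η - l < 1 / 2 := h2.2
  rw [Finset.mem_Icc]
  constructor
  · have : (-(2 ^ ρ + 1) : ℝ) ≤ l := by linarith [h1.1]
    exact_mod_cast this
  · have : (l : ℝ) ≤ 2 ^ ρ + 1 := by linarith [h1.2]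
    exact_mod_cast this

/-- The energy bound for a bounded function supported on the good set. -/
lemma energy_good (m ρ : ℕ) (g : ℝ → ℂ) (hg : MemLp g 2 volume) (C : ℝ) (hC0 : 0 ≤ C)
    (hC : ∀ η, ‖g η‖ ≤ C) (hsupp : ∀ η, g η ≠ 0 → η ∈ Gd m ρ) (hm : 2 ≤ m) :
    ∃ C' : ℝ, 0 ≤ C' ∧ ∀ (s : Finset (ℤ × ℤ)) (c : ℤ × ℤ → ℂ),
      ‖∑ p ∈ s, c p • Dh p (hg.toLp g)‖ ^ 2 ≤ C' * ‖∑ p ∈ s, c p • Dh p (aM m)‖ ^ 2 := by
  classical
  set Ann : ℤ → Set ℝ := fun n => {η : ℝ | (2:ℝ) ^ n ≤ |η| ∧ |η| < 2 ^ (n + 1)} with hAnn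
  have hab : Measurable (fun x : ℝ => |x|) := continuous_abs.measurable
  have hAm : ∀ n, MeasurableSet (Ann n) := fun n =>
    (measurableSet_le measurable_const hab).inter (measurableSet_lt hab measurable_const)
  have hgn : ∀ n, MemLp ((Ann n).indicator g) 2 volume := fun n => hg.indicator (hAm n)
  set I : Finset ℤ := Finset.Ico (-(ρ:ℤ)) ρ with hI
  have hsum : hg.toLp g = ∑ n ∈ I, (hgn n).toLp _ := by
    have h1 : g = ∑ n ∈ I, (Ann n).indicator g := by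
      funext η
      rw [Finset.sum_apply]
      by_cases h : g η = 0
      · rw [h]
        symm
        refine Finset.sum_eq_zero fun n _ => ?_
        by_cases h2 : η ∈ Ann n
        · rw [Set.indicator_of_mem h2, h]
        · rw [Set.indicator_of_notMem h2]
      · have hG := hsupp η h
        have hη : 0 < |η| := lt_of_lt_of_le (by positivity) hG.1.1
        obtain ⟨n, hn⟩ := exists_mem_Ico_zpow (y := (2:ℝ)) hη (by norm_num)
        have hnI : n ∈ I := by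
          rw [hI, Finset.mem_Ico]
          constructor
          · by_contra hc
            have : (2:ℝ) ^ (n + 1) ≤ 2 ^ (-(ρ:ℤ)) := zpow_le_zpow_right₀ (by norm_num) (by omega)
            linarith [hn.2, hG.1.1]
          · by_contra hc
            have : (2:ℝ) ^ (ρ:ℤ) ≤ 2 ^ n := zpow_le_zpow_right₀ (by norm_num) (by omega)
            linarith [hn.1, hG.1.2]
        rw [Finset.sum_eq_single_of_mem n hnI]
        · rw [Set.indicator_of_mem (show η ∈ Ann n from hn)]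
        · intro n' _ hne
          rw [Set.indicator_of_notMem]
          rintro ⟨h3, h4⟩
          rcases lt_or_gt_of_ne hne with h5 | h5
          · have : (2:ℝ) ^ (n' + 1) ≤ 2 ^ n := zpow_le_zpow_right₀ (by norm_num) (by omega)
            linarith [hn.1]
          · have : (2:ℝ) ^ (n + 1) ≤ 2 ^ n' := zpow_le_zpow_right₀ (by norm_num) (by omega)
            linarith [hn.2]
    have h2 := coeFn_sumZ hgn I
    rw [Lp.ext_iff]
    filter_upwards [h2, hg.coeFn_toLp] with η h3 h4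
    rw [h3, h4]
    conv_lhs => rw [h1]
    rw [Finset.sum_apply]
  have hpiece : ∀ n (s : Finset (ℤ × ℤ)) (c : ℤ × ℤ → ℂ),
      ‖∑ p ∈ s, c p • Dh p ((hgn n).toLp _)‖ ≤
        Real.sqrt (C ^ 2 * (Fl ρ).card) * ‖∑ p ∈ s, c p • Dh p (aM m)‖ := by
    intro n s c
    have h1 := energy_piece m _ (hgn n) C (fun η => by
      by_cases h : η ∈ Ann n
      · rw [Set.indicator_of_mem h]; exact hC η
      · rw [Set.indicator_of_notMem h]; simpa using hC0) n (Fl ρ) (fun η h => by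
        have h2 : η ∈ Ann n := by
          by_contra hc; exact h (Set.indicator_of_notMem hc _)
        rw [Set.indicator_of_mem h2] at h
        obtain ⟨h3, _, l, hl⟩ := hsupp η h
        exact ⟨h2, l, mem_Fl h3.2 hl.1, hl⟩) s c
    rw [← energy_a m hm] at h1
    have h2 : ‖∑ p ∈ s, c p • Dh p ((hgn n).toLp _)‖ ^ 2 ≤
        (C ^ 2 * (Fl ρ).card) * ‖∑ p ∈ s, c p • Dh p (aM m)‖ ^ 2 := by
      have h3 := ENNReal.toReal_mono ?_ h1
      · simpa [ENNReal.toReal_mul, ENNReal.toReal_pow, ENNReal.toReal_ofReal (sq_nonneg C)] using h3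
      · exact ENNReal.mul_ne_top (ENNReal.mul_ne_top ENNReal.ofReal_ne_top (by simp)) (by simp)
    have h4 : ‖∑ p ∈ s, c p • Dh p ((hgn n).toLp _)‖ ^ 2 ≤
        (Real.sqrt (C ^ 2 * (Fl ρ).card) * ‖∑ p ∈ s, c p • Dh p (aM m)‖) ^ 2 := by
      rw [mul_pow, Real.sq_sqrt (by positivity)]; exact h2
    exact (abs_le_of_sq_le_sq' h4 (by positivity)).2
  refine ⟨(I.card * Real.sqrt (C ^ 2 * (Fl ρ).card)) ^ 2, by positivity, fun s c => ?_⟩
  rw [hsum, ← mul_pow]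
  refine pow_le_pow_left₀ (norm_nonneg _) ?_ 2
  have h1 : ∑ p ∈ s, c p • Dh p (∑ n ∈ I, (hgn n).toLp _) =
      ∑ n ∈ I, ∑ p ∈ s, c p • Dh p ((hgn n).toLp _) := by
    rw [Finset.sum_comm]
    refine Finset.sum_congr rfl fun p _ => ?_
    rw [map_sum, Finset.smul_sum]
  rw [h1]
  refine (norm_sum_le _ _).trans ?_
  refine (Finset.sum_le_sum fun n _ => hpiece n s c).trans ?_
  rw [Finset.sum_const, nsmul_eq_mul, mul_assoc]


lemma bad_sub (m ρ : ℕ) (hm : 2 ≤ m) : {η : ℝ | |η| < 2 ^ (ρ:ℤ)} \ Gd m ρ ⊆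
    {η : ℝ | |η| < 2 ^ (-(ρ:ℤ))} ∪
    ((⋃ n ∈ Finset.Ico (-(ρ:ℤ)) ρ, {η : ℝ | (2:ℝ) ^ (-(n + m)) * η ∈ kap m '' QQ}) ∪
    (⋃ l ∈ Fl ρ, {η : ℝ | η - (l:ℝ) ∈ KK m})) := by
  rintro η ⟨h1, h2⟩
  have h1' : |η| < 2 ^ (ρ:ℤ) := h1
  by_cases h3 : |η| < 2 ^ (-(ρ:ℤ))
  · exact Or.inl h3
  · right
    rw [not_lt] at h3
    have hη : 0 < |η| := lt_of_lt_of_le (by positivity) h3
    by_cases h4 : η ∈ Om m
    · right
      have h5 : ¬ ∃ l : ℤ, η - l ∈ GG m := fun h => h2 ⟨⟨h3, h1'⟩, h4, h⟩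
      have hl : η - (⌊η + 1 / 2⌋ : ℝ) ∈ QQ := by
        have a1 := Int.floor_le (η + 1 / 2)
        have a2 := Int.lt_floor_add_one (η + 1 / 2)
        constructor <;> linarith
      simp only [Set.mem_iUnion]
      refine ⟨⌊η + 1 / 2⌋, mem_Fl h1' hl, ?_⟩
      by_contra hc
      exact h5 ⟨⌊η + 1 / 2⌋, hl, hc⟩
    · left
      obtain ⟨n, hn⟩ := exists_mem_Ico_zpow (y := (2:ℝ)) hη (by norm_num)
      simp only [Set.mem_iUnion]
      refine ⟨n, ?_, ?_⟩
      · rw [Finset.mem_Ico]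
        constructor
        · by_contra hc
          have : (2:ℝ) ^ (n + 1) ≤ 2 ^ (-(ρ:ℤ)) := zpow_le_zpow_right₀ (by norm_num) (by omega)
          linarith [hn.2]
        · by_contra hc
          have : (2:ℝ) ^ (ρ:ℤ) ≤ 2 ^ n := zpow_le_zpow_right₀ (by norm_num) (by omega)
          linarith [hn.1]
      · have h5 : (2:ℝ) ^ (-(n + m)) * η ∈ D0 m := by
          have h6 : (0:ℝ) < 2 ^ (-(n + m : ℤ)) := by positivity
          constructor
          · rw [abs_mul, abs_of_pos h6]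
            calc (2:ℝ) ^ (-(m:ℤ)) = 2 ^ (-(n + m : ℤ)) * 2 ^ n := by
                  rw [← zpow_add₀ (by norm_num)]; congr 1; ring
              _ ≤ _ := mul_le_mul_of_nonneg_left hn.1 h6.le
          · rw [abs_mul, abs_of_pos h6]
            calc (2:ℝ) ^ (-(n + m : ℤ)) * |η| < 2 ^ (-(n + m : ℤ)) * 2 ^ (n + 1) :=
                  mul_lt_mul_of_pos_left hn.2 h6
              _ = 2 ^ (-(m:ℤ) + 1) := by
                  rw [← zpow_add₀ (by norm_num)]; congr 1; ring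
        have h7 : (2:ℝ) ^ (-(n + m)) * η ∉ KK m := fun h => h4 ⟨n + m, h⟩
        have h8 : (2:ℝ) ^ (-(n + m)) * η ∈ kap m '' GG m := by
          rw [← D0_diff m hm]; exact ⟨h5, h7⟩
        exact Set.image_mono (Set.sdiff_subset) h8

lemma vol_piece (m : ℕ) (n : ℤ) :
    volume {η : ℝ | (2:ℝ) ^ (-(n + m)) * η ∈ kap m '' QQ} ≤ ENNReal.ofReal (2 ^ n * (1 / 2) ^ m) := by
  have h1 : {η : ℝ | (2:ℝ) ^ (-(n + m)) * η ∈ kap m '' QQ} ⊆
      Set.Ico ((2:ℝ) ^ (n - m) * (2 ^ m + 1 / 2)) (2 ^ (n - m) * (2 ^ m + 3 / 2)) := by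
    rintro η ⟨x, hx, hxη⟩
    have h2 : η = (2:ℝ) ^ (n - m) * (x + (2 ^ m + 1)) := by
      have h3 : η = (2:ℝ) ^ (n + m) * ((2:ℝ) ^ (-(n + m)) * η) := by
        rw [← mul_assoc, ← zpow_add₀ (by norm_num)]; simp
      rw [h3, ← hxη]
      unfold kap
      rw [← mul_assoc, ← zpow_add₀ (by norm_num)]
      congr 2; ring
    have h4 : (0:ℝ) < 2 ^ (n - (m:ℤ)) := by positivity
    have hx1 : -1 / 2 ≤ x := hx.1
    have hx2 : x < 1 / 2 := hx.2
    rw [h2]
    exact ⟨mul_le_mul_of_nonneg_left (by linarith) h4.le, mul_lt_mul_of_pos_left (by linarith) h4⟩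
  refine (measure_mono h1).trans ?_
  rw [Real.volume_Ico]
  apply ENNReal.ofReal_le_ofReal
  rw [zpow_sub₀ (by norm_num), zpow_natCast, one_div, inv_pow]
  have : (0:ℝ) < 2 ^ m := by positivity
  apply le_of_eq
  field_simp
  ring

lemma vol_bad (m ρ : ℕ) (hm : 2 ≤ m) : volume ({η : ℝ | |η| < 2 ^ (ρ:ℤ)} \ Gd m ρ) ≤
    ENNReal.ofReal (2 * (1 / 2) ^ ρ) +
      ((2 * ρ : ℕ) * ENNReal.ofReal (2 ^ ρ * (1 / 2) ^ m) +
        (Fl ρ).card * ENNReal.ofReal (4 * (1 / 2) ^ m)) := by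
  refine (measure_mono (bad_sub m ρ hm)).trans ((measure_union_le _ _).trans ?_)
  refine add_le_add ?_ ((measure_union_le _ _).trans (add_le_add ?_ ?_))
  · have : {η : ℝ | |η| < 2 ^ (-(ρ:ℤ))} = Set.Ioo (-(2:ℝ) ^ (-(ρ:ℤ))) (2 ^ (-(ρ:ℤ))) := by
      ext η; simp [abs_lt]
    rw [this, Real.volume_Ioo]
    apply ENNReal.ofReal_le_ofReal
    rw [zpow_neg, zpow_natCast, one_div, inv_pow]
    linarith
  · refine (measure_biUnion_finset_le _ _).trans ?_
    refine (Finset.sum_le_card_nsmul _ _ (ENNReal.ofReal (2 ^ ρ * (1 / 2) ^ m)) ?_).trans ?_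
    · intro n hn
      refine (vol_piece m n).trans (ENNReal.ofReal_le_ofReal ?_)
      rw [Finset.mem_Ico] at hn
      refine mul_le_mul_of_nonneg_right ?_ (by positivity)
      rw [← zpow_natCast]
      exact zpow_le_zpow_right₀ (by norm_num) (by omega)
    · rw [Int.card_Ico, nsmul_eq_mul]
      apply le_of_eq
      congr 2
      omega
  · refine (measure_biUnion_finset_le _ _).trans ?_
    refine (Finset.sum_le_card_nsmul _ _ (ENNReal.ofReal (4 * (1 / 2) ^ m)) ?_).trans ?_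
    · intro l _
      have h1 : {η : ℝ | η - (l:ℝ) ∈ KK m} = (fun x : ℝ => x - (l:ℝ)) ⁻¹' KK m := rfl
      rw [h1, (measurePreserving_sub_right (volume : Measure ℝ) (l:ℝ)).measure_preimage
        (measurable_KK m).nullMeasurableSet]
      exact vol_KK m hm
    · rw [nsmul_eq_mul]

/-- Approximation of an arbitrary element. -/
lemma approx (u : HH) (ε : ℝ) (hε : 0 < ε) : ∃ (m : ℕ) (hm : 2 ≤ m) (g : ℝ → ℂ) (hg : MemLp g 2 volume),
    ‖u - hg.toLp g‖ < ε ∧ ‖bM m hm‖ < ε ∧ (∀ η, g η ≠ 0 → η ∈ Om m) ∧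
    ∃ C' : ℝ, 0 ≤ C' ∧ ∀ (s : Finset (ℤ × ℤ)) (c : ℤ × ℤ → ℂ),
      ‖∑ p ∈ s, c p • Dh p (hg.toLp g)‖ ^ 2 ≤ C' * ‖∑ p ∈ s, c p • Dh p (aM m)‖ ^ 2 := by
  obtain ⟨g, hgs, hgu, hgc, hg⟩ := (Lp.memLp u).exists_hasCompactSupport_eLpNorm_sub_le
    (by norm_num : (2:ℝ≥0∞) ≠ ⊤) (ε := ENNReal.ofReal (ε / 4))
    (by simpa using hε)
  obtain ⟨C, hC⟩ := hgc.bounded_above_of_compact_support hgs
  have hC0 : 0 ≤ C := le_trans (norm_nonneg _) (hC 0)
  obtain ⟨R, hR⟩ := hgs.isBounded.subset_ball 0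
  -- choose ρ
  have hδ : 0 < (ε / 4) ^ 2 / (C ^ 2 + 1) := by positivity
  obtain ⟨ρ1, hρ1⟩ := exists_pow_lt_of_lt_one (show 0 < (ε / 4) ^ 2 / (C ^ 2 + 1) / 4 by positivity)
    (show (1 / 2 : ℝ) < 1 by norm_num)
  obtain ⟨ρ2, hρ2⟩ := pow_unbounded_of_one_lt R (show (1:ℝ) < 2 by norm_num)
  set ρ := max ρ1 ρ2 with hρ
  have e1 : (1 / 2 : ℝ) ^ ρ < (ε / 4) ^ 2 / (C ^ 2 + 1) / 4 :=
    lt_of_le_of_lt (pow_le_pow_of_le_one (by norm_num) (by norm_num) (le_max_left _ _)) hρ1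
  have e2 : R < 2 ^ ρ := lt_of_lt_of_le hρ2 (pow_le_pow_right₀ (by norm_num) (le_max_right _ _))
  -- choose m
  set D : ℝ := 2 * ρ * 2 ^ ρ + (Fl ρ).card * 4 + 4 with hD
  have hDpos : 0 < D := by positivity
  obtain ⟨m1, hm1⟩ := exists_pow_lt_of_lt_one
    (show 0 < min ((ε / 4) ^ 2 / (C ^ 2 + 1) / 4) (ε ^ 2 / 4) / D by positivity)
    (show (1 / 2 : ℝ) < 1 by norm_num)
  set m := max m1 2 with hmdef
  have hm : 2 ≤ m := le_max_right _ _
  have e3 : D * (1 / 2 : ℝ) ^ m < min ((ε / 4) ^ 2 / (C ^ 2 + 1) / 4) (ε ^ 2 / 4) := by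
    have h1 : (1 / 2 : ℝ) ^ m < min ((ε / 4) ^ 2 / (C ^ 2 + 1) / 4) (ε ^ 2 / 4) / D :=
      lt_of_le_of_lt (pow_le_pow_of_le_one (by norm_num) (by norm_num) (le_max_left _ _)) hm1
    rw [lt_div_iff₀ hDpos] at h1
    linarith
  have hpm : (0:ℝ) < (1 / 2) ^ m := by positivity
  set h := (Gd m ρ).indicator g with hh
  have hhm : MemLp h 2 volume := hg.indicator (measurable_Gd m ρ)
  have hhC : ∀ η, ‖h η‖ ≤ C := by
    intro η
    by_cases hη : η ∈ Gd m ρ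
    · rw [hh, Set.indicator_of_mem hη]; exact hC η
    · rw [hh, Set.indicator_of_notMem hη]; simpa using hC0
  have hhs : ∀ η, h η ≠ 0 → η ∈ Gd m ρ := by
    intro η hη
    by_contra hc
    exact hη (Set.indicator_of_notMem hc _)
  refine ⟨m, hm, h, hhm, ?_, ?_, fun η hη => (hhs η hη).2.1, energy_good m ρ h hhm C hC0 hhC hhs hm⟩
  · -- distance
    have d1 : ‖u - hg.toLp g‖ ≤ ε / 4 := by
      have h1 : u - hg.toLp g = ((Lp.memLp u).sub hg).toLp _ := by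
        rw [MemLp.toLp_sub (Lp.memLp u) hg, Lp.toLp_coeFn]
      rw [h1, Lp.norm_toLp]
      exact ENNReal.toReal_le_of_le_ofReal (by positivity) hgu
    have d2 : ‖hg.toLp g - hhm.toLp h‖ < ε / 2 := by
      have h1 : hg.toLp g - hhm.toLp h = (hg.sub hhm).toLp _ := by
        rw [MemLp.toLp_sub]
      have h2 : ‖hg.toLp g - hhm.toLp h‖ₑ ^ 2 ≤ ENNReal.ofReal ((ε / 4) ^ 2) := by
        rw [h1, enorm_sq, lintegral_congr_ae (g := fun ξ => ‖g ξ - h ξ‖ₑ ^ 2)]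
        swap
        · filter_upwards [(hg.sub hhm).coeFn_toLp] with ξ hξ
          rw [hξ]; rfl
        have h3 : ∀ ξ, ‖g ξ - h ξ‖ₑ ^ 2 ≤
            ({η : ℝ | |η| < 2 ^ (ρ:ℤ)} \ Gd m ρ).indicator (fun _ => ENNReal.ofReal (C ^ 2)) ξ := by
          intro ξ
          by_cases hξ : ξ ∈ Gd m ρ
          · rw [hh, Set.indicator_of_mem hξ]; simp
          · rw [hh, Set.indicator_of_notMem hξ, sub_zero]
            by_cases h4 : g ξ = 0
            · rw [h4]; simp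
            · have h5 : ξ ∈ tsupport g := subset_tsupport g h4
              have h6 := hR h5
              rw [Metric.mem_ball, dist_zero_right, Real.norm_eq_abs] at h6
              have h7 : ξ ∈ {η : ℝ | |η| < 2 ^ (ρ:ℤ)} \ Gd m ρ := by
                refine ⟨?_, hξ⟩
                show |ξ| < 2 ^ (ρ:ℤ)
                rw [zpow_natCast]; linarith
              rw [Set.indicator_of_mem h7, ← ofReal_norm, ← ENNReal.ofReal_pow (norm_nonneg _)]
              exact ENNReal.ofReal_le_ofReal (pow_le_pow_left₀ (norm_nonneg _) (hC ξ) 2)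
        refine (lintegral_mono h3).trans ?_
        have hms : MeasurableSet ({η : ℝ | |η| < 2 ^ (ρ:ℤ)} \ Gd m ρ) :=
          (measurableSet_lt continuous_abs.measurable measurable_const).diff (measurable_Gd m ρ)
        rw [lintegral_indicator_const hms]
        refine (mul_le_mul_right (vol_bad m ρ hm) _).trans ?_
        have h8 : ENNReal.ofReal (2 * (1 / 2) ^ ρ) +
            (((2 * ρ : ℕ) : ℝ≥0∞) * ENNReal.ofReal (2 ^ ρ * (1 / 2) ^ m) +
            ((Fl ρ).card : ℝ≥0∞) * ENNReal.ofReal (4 * (1 / 2) ^ m)) =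
            ENNReal.ofReal (2 * (1 / 2) ^ ρ + ((2 * ρ : ℕ) * (2 ^ ρ * (1 / 2) ^ m) +
              (Fl ρ).card * (4 * (1 / 2) ^ m))) := by
          rw [ENNReal.ofReal_add (by positivity) (by positivity),
            ENNReal.ofReal_add (by positivity) (by positivity),
            ENNReal.ofReal_mul (p := ((2 * ρ : ℕ) : ℝ)) (by positivity),
            ENNReal.ofReal_mul (p := ((Fl ρ).card : ℝ)) (by positivity),
            ENNReal.ofReal_natCast, ENNReal.ofReal_natCast]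
        rw [h8, ← ENNReal.ofReal_mul (by positivity)]
        apply ENNReal.ofReal_le_ofReal
        have h9 : 2 * (1 / 2 : ℝ) ^ ρ + ((2 * ρ : ℕ) * (2 ^ ρ * (1 / 2) ^ m) +
              (Fl ρ).card * (4 * (1 / 2) ^ m)) ≤ (ε / 4) ^ 2 / (C ^ 2 + 1) := by
          have h10 : ((2 * ρ : ℕ) : ℝ) * (2 ^ ρ * (1 / 2) ^ m) + (Fl ρ).card * (4 * (1 / 2) ^ m) ≤
              D * (1 / 2) ^ m := by
            rw [hD]; push_cast; nlinarith
          have h11 := min_le_left ((ε / 4) ^ 2 / (C ^ 2 + 1) / 4) (ε ^ 2 / 4)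
          linarith
        calc C ^ 2 * _ ≤ C ^ 2 * ((ε / 4) ^ 2 / (C ^ 2 + 1)) :=
              mul_le_mul_of_nonneg_left h9 (sq_nonneg C)
          _ ≤ (C ^ 2 + 1) * ((ε / 4) ^ 2 / (C ^ 2 + 1)) :=
              mul_le_mul_of_nonneg_right (by linarith) hδ.le
          _ = (ε / 4) ^ 2 := by field_simp
      have h12 : ‖hg.toLp g - hhm.toLp h‖ ^ 2 ≤ (ε / 4) ^ 2 := by
        rw [← ofReal_norm, ← ENNReal.ofReal_pow (norm_nonneg _)] at h2
        exact (ENNReal.ofReal_le_ofReal_iff (by positivity)).1 h2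
      have h13 := (abs_le_of_sq_le_sq' h12 (by positivity)).2
      linarith
    calc ‖u - hhm.toLp h‖ = ‖(u - hg.toLp g) + (hg.toLp g - hhm.toLp h)‖ := by congr 1; abel
      _ ≤ _ := norm_add_le _ _
      _ < ε := by linarith
  · -- the small generator
    have h2 : ‖bM m hm‖ₑ ^ 2 ≤ ENNReal.ofReal (4 * (1 / 2) ^ m) := by
      unfold bM
      rw [enorm_sq, lintegral_congr_ae (g := (KK m).indicator (fun _ => 1))]
      swap
      · filter_upwards [(memLp_phiK m hm).coeFn_toLp] with ξ hξ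
        rw [hξ]
        by_cases h : ξ ∈ KK m
        · rw [Set.indicator_of_mem h, Set.indicator_of_mem h]; simp
        · rw [Set.indicator_of_notMem h, Set.indicator_of_notMem h]; simp
      rw [lintegral_indicator_const (measurable_KK m), one_mul]
      exact vol_KK m hm
    rw [← ofReal_norm, ← ENNReal.ofReal_pow (norm_nonneg _)] at h2
    have h3 : ‖bM m hm‖ ^ 2 ≤ 4 * (1 / 2) ^ m :=
      (ENNReal.ofReal_le_ofReal_iff (by positivity)).1 h2
    have h4 : 4 * (1 / 2 : ℝ) ^ m ≤ D * (1 / 2) ^ m := by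
      refine mul_le_mul_of_nonneg_right ?_ hpm.le
      rw [hD]
      have : (0:ℝ) ≤ 2 * ρ * 2 ^ ρ + (Fl ρ).card * 4 := by positivity
      linarith
    have h5 := min_le_right ((ε / 4) ^ 2 / (C ^ 2 + 1) / 4) (ε ^ 2 / 4)
    have h6 : ‖bM m hm‖ ^ 2 < ε ^ 2 := by nlinarith
    exact lt_of_pow_lt_pow_left₀ 2 hε.le h6

end pieces

end Pool.Agent.Helper704.RW
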