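import Mathlib
import Pool.Agent.Helper704.RW.Approx
set_option autoImplicit false
set_option linter.unusedSectionVars false
open MeasureTheory
open scoped FourierTransform ENNReal
open Pool.Agent.Helper704

namespace Pool.Agent.Helper704.RW

lemma norm_sq_toLp (f : ℝ → ℂ) (hf : MemLp f 2 volume) :
    ‖hf.toLp f‖ ^ 2 = ∫ x, ‖f x‖ ^ 2 := by
  have h1 := inner_toLp f f hf hf
  have h2 : (inner ℂ (hf.toLp f) (hf.toLp f) : ℂ) = ((‖hf.toLp f‖ ^ 2 : ℝ) : ℂ) := by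
    rw [inner_self_eq_norm_sq_to_K]; norm_cast
  have h3 : ∫ ξ, (starRingEnd ℂ) (f ξ) * f ξ = ((∫ x, ‖f x‖ ^ 2 : ℝ) : ℂ) := by
    rw [← integral_complex_ofReal]
    congr 1
    funext ξ
    rw [mul_comm, Complex.mul_conj, Complex.normSq_eq_norm_sq]
  rw [h2, h3] at h1
  exact_mod_cast h1

/-- The time side value. -/
noncomputable def ts (p : ℤ × ℤ) (ψ : ℝ → ℂ) (x : ℝ) : ℂ :=
  (((2 : ℝ) ^ ((p.1 : ℝ) / 2) : ℝ) : ℂ) * ψ ((2 : ℝ) ^ p.1 * x - (p.2 : ℝ))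

lemma ts_eq (p : ℤ × ℤ) (ψ : ℝ → ℂ) (x : ℝ) :
    wT (dy p.1) x * ψ (dy p.1 x - (p.2 : ℝ)) = ts p ψ x := by
  unfold wT ts
  rw [adet_dy, dy_apply]
  congr 2
  rw [Real.sqrt_eq_rpow, ← Real.rpow_intCast, ← Real.rpow_mul (by norm_num)]
  congr 1; ring

lemma memLp_ts (p : ℤ × ℤ) {ψ : ℝ → ℂ} (hψ : MemLp ψ 2 volume) : MemLp (ts p ψ) 2 volume := by
  have := memLp_wco (dy p.1) (p.2 : ℝ) (wT (dy p.1)) (wt_wT _) hψ
  simp_rw [ts_eq] at this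
  exact this

lemma Ds_toLp (p : ℤ × ℤ) {ψ : ℝ → ℂ} (hψ : MemLp ψ 2 volume) :
    Ds p (hψ.toLp ψ) = (memLp_ts p hψ).toLp _ := by
  unfold Ds
  rw [wco_toLp]
  apply MemLp.toLp_congr
  exact Filter.Eventually.of_forall fun x => ts_eq p ψ x

lemma memLp_sum {F : ℤ × ℤ → ℝ → ℂ} (hF : ∀ p, MemLp (F p) 2 volume) (s : Finset (ℤ × ℤ))
    (c : ℤ × ℤ → ℂ) : MemLp (fun x => ∑ p ∈ s, c p * F p x) 2 volume :=
  memLp_finsetSum _ fun p _ => (hF p).const_mul _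

lemma toLp_sum' {F : ℤ × ℤ → ℝ → ℂ} (hF : ∀ p, MemLp (F p) 2 volume) (s : Finset (ℤ × ℤ))
    (c : ℤ × ℤ → ℂ) : (memLp_sum hF s c).toLp _ = ∑ p ∈ s, c p • (hF p).toLp (F p) := by
  rw [Lp.ext_iff]
  filter_upwards [coeFn_sum hF s c, (memLp_sum hF s c).coeFn_toLp] with x h1 h2
  rw [h1, h2]

theorem main : ∀ f : ℝ → ℂ, MemLp f 2 volume → ∀ ε : ℝ, 0 < ε →
      ∃ ψ : ℝ → ℂ, MemLp ψ 2 volume ∧
        ∫ x, ‖f x - ψ x‖ ^ 2 < ε ∧
        (∃ A B : ℝ, 0 < A ∧ 0 < B ∧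
          ∀ s : Finset (ℤ × ℤ), ∀ c : ℤ × ℤ → ℂ,
            A * ∑ p ∈ s, ‖c p‖ ^ 2 ≤ ∫ x, ‖∑ p ∈ s, c p * ts p ψ x‖ ^ 2 ∧
            ∫ x, ‖∑ p ∈ s, c p * ts p ψ x‖ ^ 2 ≤ B * ∑ p ∈ s, ‖c p‖ ^ 2) ∧
        (∀ g : ℝ → ℂ, MemLp g 2 volume → ∀ δ : ℝ, 0 < δ →
          ∃ s : Finset (ℤ × ℤ), ∃ c : ℤ × ℤ → ℂ,
            ∫ x, ‖g x - ∑ p ∈ s, c p * ts p ψ x‖ ^ 2 < δ) := by
  intro f hf ε hε
  set u : HH := 𝓕 (hf.toLp f) with hu
  set ε1 : ℝ := Real.sqrt ε / 4 with hε1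
  have hsq : 0 < Real.sqrt ε := Real.sqrt_pos.2 hε
  have hε1p : 0 < ε1 := by positivity
  obtain ⟨m, hm, g, hg, h1, h2, h3, C', hC', h4⟩ := approx u ε1 hε1p
  set a : ℤ × ℤ → HH := fun p => Dh p (aM m) with ha
  set b : ℤ × ℤ → HH := fun p => Dh p (bM m hm) with hb
  set h : ℤ × ℤ → HH := fun p => Dh p (hg.toLp g) with hh
  set Φ : HH := (ε1 : ℂ) • aM m + bM m hm + hg.toLp g with hΦ
  set Ψ : HH := 𝓕⁻ Φ with hΨ
  have hFΨ : 𝓕 Ψ = Φ := FourierTransform.fourier_fourierInv_eq Φ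
  have hDh : ∀ p, Dh p Φ = (ε1 : ℂ) • a p + b p + h p := by
    intro p
    simp only [hΦ, ha, hb, hh, map_add, map_smul]
  have hab : ∀ p q, inner ℂ (a p) (b q) = 0 := fun p q => by
    refine orth_a m hm _ (memLp_phiK m hm) (fun η hη => ?_) p q
    by_cases hc : η ∈ KK m
    · exact KK_sub_Om m hc
    · exact (hη (Set.indicator_of_notMem hc _)).elim
  have hah : ∀ p q, inner ℂ (a p) (h q) = 0 := fun p q => orth_a m hm g hg h3 p q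
  have heq : (fun p => a p + b p) = eM m hm := by
    funext p; exact (eM_eq m hm p).symm
  have he : Orthonormal ℂ (fun p => a p + b p) := by rw [heq]; exact orthonormal_eM m hm
  have hd : ∀ x : HH, ∀ η : ℝ, 0 < η → ∃ (s : Finset (ℤ × ℤ)) (c : ℤ × ℤ → ℂ),
      ‖x - ∑ p ∈ s, c p • (a p + b p)‖ < η := by
    intro x η hη
    obtain ⟨s, c, hsc⟩ := dense_eM m hm x η hη
    refine ⟨s, c, ?_⟩
    have : ∀ p, a p + b p = eM m hm p := fun p => congrFun heq p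
    simp_rw [this]; exact hsc
  -- the norm of combinations
  set ψ : ℝ → ℂ := fun x => Ψ x with hψdef
  have hψ : MemLp ψ 2 volume := Lp.memLp Ψ
  have hψΨ : hψ.toLp ψ = Ψ := Lp.toLp_coeFn Ψ _
  have hcomb : ∀ (s : Finset (ℤ × ℤ)) (c : ℤ × ℤ → ℂ),
      𝓕 ((memLp_sum (fun p => memLp_ts p hψ) s c).toLp _) =
        ∑ p ∈ s, c p • ((ε1 : ℂ) • a p + b p + h p) := by
    intro s c
    rw [toLp_sum' (fun p => memLp_ts p hψ)]
    have e1 : ∀ v : HH, 𝓕 v = Lp.fourierTransformₗᵢ ℝ ℂ v := fun v => rfl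
    rw [e1, map_sum]
    refine Finset.sum_congr rfl fun p _ => ?_
    rw [map_smul, ← e1, ← Ds_toLp p hψ, hψΨ, fourier_Ds, hFΨ, hDh]
  refine ⟨ψ, hψ, ?_, ?_, ?_⟩
  · have e1 : ∫ x, ‖f x - ψ x‖ ^ 2 = ‖hf.toLp f - Ψ‖ ^ 2 := by
      have := norm_sq_toLp _ (hf.sub hψ)
      rw [MemLp.toLp_sub hf hψ, hψΨ] at this
      rw [this]; rfl
    have e2 : ‖hf.toLp f - Ψ‖ = ‖u - Φ‖ := by
      have e3 : ∀ v : HH, 𝓕 v = Lp.fourierTransformₗᵢ ℝ ℂ v := fun v => rfl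
      rw [← Lp.norm_fourier_eq (hf.toLp f - Ψ), e3, map_sub, ← e3, ← e3, hFΨ]
    have e4 : ‖aM m‖ ≤ 1 := by
      have h5 : ‖aM m‖ₑ ^ 2 ≤ 1 := by
        unfold aM
        rw [enorm_sq, lintegral_congr_ae (g := (LL m).indicator (fun _ => 1))]
        swap
        · filter_upwards [(memLp_phiL m).coeFn_toLp] with ξ hξ
          rw [hξ]
          by_cases h : ξ ∈ LL m
          · rw [Set.indicator_of_mem h, Set.indicator_of_mem h]; simp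
          · rw [Set.indicator_of_notMem h, Set.indicator_of_notMem h]; simp
        rw [lintegral_indicator_const (measurable_LL m), one_mul]
        exact vol_LL m
      rw [← ofReal_norm, ← ENNReal.ofReal_pow (norm_nonneg _)] at h5
      have h6 := ENNReal.ofReal_le_one.1 h5
      nlinarith [norm_nonneg (aM m)]
    have e5 : ‖u - Φ‖ < Real.sqrt ε := by
      have e6 : u - Φ = (u - hg.toLp g) - (ε1 : ℂ) • aM m - bM m hm := by rw [hΦ]; abel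
      rw [e6]
      have e7 : ‖(ε1 : ℂ) • aM m‖ ≤ ε1 := by
        rw [norm_smul, Complex.norm_real, Real.norm_eq_abs, abs_of_pos hε1p]
        exact mul_le_of_le_one_right hε1p.le e4
      calc _ ≤ ‖(u - hg.toLp g) - (ε1 : ℂ) • aM m‖ + ‖bM m hm‖ := norm_sub_le _ _
        _ ≤ ‖u - hg.toLp g‖ + ‖(ε1 : ℂ) • aM m‖ + ‖bM m hm‖ := by gcongr; exact norm_sub_le _ _
        _ < ε1 + ε1 + ε1 := by linarith
        _ ≤ Real.sqrt ε := by rw [hε1]; linarith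
    rw [e1, e2]
    calc ‖u - Φ‖ ^ 2 < (Real.sqrt ε) ^ 2 := pow_lt_pow_left₀ e5 (norm_nonneg _) (by norm_num)
      _ = ε := Real.sq_sqrt hε.le
  · obtain ⟨A, B, hA, hB, hAB⟩ := riesz_bounds a b h hab hah he C' hC' h4 ε1 hε1p
    refine ⟨A, B, hA, hB, fun s c => ?_⟩
    have e1 : ∫ x, ‖∑ p ∈ s, c p * ts p ψ x‖ ^ 2 =
        ‖∑ p ∈ s, c p • ((ε1 : ℂ) • a p + b p + h p)‖ ^ 2 := by
      rw [← norm_sq_toLp _ (memLp_sum (fun p => memLp_ts p hψ) s c), ← hcomb, Lp.norm_fourier_eq]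
    rw [e1]
    exact hAB s c
  · intro g' hg' δ hδ
    have hT := dense_span a b h hab hah hd C' hC' h4 ε1 hε1p
    set v : HH := 𝓕 (hg'.toLp g') with hv
    have hmem : v ∈ closure ((Submodule.span ℂ
        (Set.range fun p => (ε1 : ℂ) • a p + b p + h p) : Submodule ℂ HH) : Set HH) := by
      rw [← Submodule.topologicalClosure_coe, hT]; trivial
    rw [Metric.mem_closure_iff] at hmem
    obtain ⟨y, hy, hxy⟩ := hmem (Real.sqrt δ) (Real.sqrt_pos.2 hδ)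
    obtain ⟨c, rfl⟩ := Finsupp.mem_span_range_iff_exists_finsupp.1 hy
    refine ⟨c.support, c, ?_⟩
    have hS := memLp_sum (fun p => memLp_ts p hψ) c.support c
    have e1 : ∫ x, ‖g' x - ∑ p ∈ c.support, c p * ts p ψ x‖ ^ 2 =
        ‖hg'.toLp g' - hS.toLp _‖ ^ 2 := by
      have := norm_sq_toLp _ (hg'.sub hS)
      rw [MemLp.toLp_sub hg' hS] at this
      rw [this]; rfl
    have e2 : ‖hg'.toLp g' - hS.toLp _‖ =
        ‖v - ∑ p ∈ c.support, c p • ((ε1 : ℂ) • a p + b p + h p)‖ := by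
      have e3 : ∀ v : HH, 𝓕 v = Lp.fourierTransformₗᵢ ℝ ℂ v := fun v => rfl
      rw [← Lp.norm_fourier_eq (hg'.toLp g' - hS.toLp _), e3, map_sub, ← e3, ← e3, hcomb]
    rw [dist_eq_norm] at hxy
    rw [e1, e2]
    calc _ < (Real.sqrt δ) ^ 2 := pow_lt_pow_left₀ hxy (norm_nonneg _) (by norm_num)
      _ = δ := Real.sq_sqrt hδ.le

end Pool.Agent.Helper704.RW
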